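import Mathlib
import Pool.Agent.N733.TG.F

set_option autoImplicit false

/-! Functions dominated by the largest prime factor (for instance additive functions) keep away from thin sets:
counting. -/

namespace Pool.Agent.N375.AV

open Finset Classical
open Pool.Agent.N733.TG (sp rp sp_mul_rp sp_pos le_of_dvd_sp lt_of_dvd_rp few_large' few_square)

/-- all prime powers dividing `m` are smaller than `p` -/
def Below (m p : ℕ) : Prop := ∀ q j : ℕ, q.Prime → 1 ≤ j → q ^ j ∣ m → q ^ j < p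

/-- functions dominated by the largest prime factor: there is a constant `C` such that for `m ≥ 1` and the primes `p ≥ C`
larger than all prime powers dividing `m` the value `f (m p)` is at most `C p (1 + log (m p))^C`, and it determines `p` -/
def PD (f : ℕ → ℕ) : Prop := ∃ C : ℕ, ∀ m : ℕ, 1 ≤ m →
  (∀ p : ℕ, p.Prime → C ≤ p → Below m p → (f (m * p) : ℝ) ≤ C * p * (1 + Real.log (m * p)) ^ C) ∧
  (∀ p q : ℕ, p.Prime → q.Prime → C ≤ p → C ≤ q → Below m p → Below m q → f (m * p) = f (m * q) → p = q)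

lemma sp_smooth {y n : ℕ} (hn : n ≠ 0) (h : ∀ p : ℕ, p.Prime → p ∣ n → p ≤ y) : sp y n = n := by
  have h1 : rp y n = 1 := by
    unfold rp
    apply prod_eq_one
    intro p hp
    rw [if_pos (h p (Nat.prime_of_mem_primeFactors hp) (Nat.dvd_of_mem_primeFactors hp))]
  have h2 := sp_mul_rp y n hn
  rw [h1, mul_one] at h2
  exact h2

/-- few integers are smooth -/
lemma smooth_few : ∃ C : ℝ, 1 ≤ C ∧ ∀ (y N : ℕ), 3 ≤ y → 1 ≤ N →
    (((Icc 1 N).filter (fun n => ∀ p : ℕ, p.Prime → p ∣ n → p ≤ y)).card : ℝ) ≤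
      √N + C * N * Real.log y * Real.exp (-(Real.log N / (8 * Real.log y))) := by
  obtain ⟨C, hC, h⟩ := few_large'
  refine ⟨C * Real.exp (Real.exp (1 / 4) * (1 + C)) + 1, by
    have : 0 < C * Real.exp (Real.exp (1 / 4) * (1 + C)) := by positivity
    linarith, fun y N hy hN => ?_⟩
  have hy0 : (0 : ℝ) < y := by exact_mod_cast (by omega : 0 < y)
  have hN0 : (0 : ℝ) < N := by exact_mod_cast hN
  have hN1 : (1 : ℝ) ≤ N := by exact_mod_cast hN
  have hl : 1 ≤ Real.log y := by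
    rw [Real.le_log_iff_exp_le hy0]
    have := Real.exp_one_lt_d9
    have h3 : (3 : ℝ) ≤ y := by exact_mod_cast hy
    linarith
  obtain ⟨β, hβ⟩ : ∃ β : ℝ, β = 1 / (4 * Real.log y) := ⟨_, rfl⟩
  have hβ0 : 0 ≤ β := by rw [hβ]; positivity
  have hβ1 : β ≤ 1 / 4 := by
    rw [hβ]
    apply one_div_le_one_div_of_le (by norm_num)
    linarith
  have hβl : β * Real.log y = 1 / 4 := by
    rw [hβ]
    field_simp
  have h1 := h β y N (√N) hβ0 hβ1 (by omega) (Real.sqrt_pos.2 hN0)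
  have hyβ : (y : ℝ) ^ β = Real.exp (1 / 4) := by
    rw [Real.rpow_def_of_pos hy0, mul_comm, hβl]
  have hYβ : (√N : ℝ) ^ (-β) = Real.exp (-(Real.log N / (8 * Real.log y))) := by
    rw [Real.rpow_def_of_pos (Real.sqrt_pos.2 hN0), Real.log_sqrt hN0.le, hβ]
    congr 1
    field_simp
    ring
  have he : Real.exp (4 * β * (y : ℝ) ^ β * (Real.log y + C)) ≤ Real.exp (Real.exp (1 / 4) * (1 + C)) := by
    apply Real.exp_le_exp.2
    rw [hyβ]
    have h2 : 4 * β * (Real.log y + C) ≤ 1 + C := by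
      have h3 : 4 * β * Real.log y = 1 := by linarith
      have h4 : 4 * β * C ≤ 1 * C := mul_le_mul_of_nonneg_right (by linarith) hC.le
      rw [mul_add, h3]
      linarith
    calc 4 * β * Real.exp (1 / 4) * (Real.log y + C) = Real.exp (1 / 4) * (4 * β * (Real.log y + C)) := by ring
      _ ≤ _ := mul_le_mul_of_nonneg_left h2 (Real.exp_pos _).le
  have hsub : (Icc 1 N).filter (fun n => ∀ p : ℕ, p.Prime → p ∣ n → p ≤ y) ⊆
      Icc 1 ⌊√(N : ℝ)⌋₊ ∪ (Icc 1 N).filter (fun m => √(N : ℝ) < (sp y m : ℝ)) := by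
    intro n hn
    rw [mem_filter, mem_Icc] at hn
    rw [mem_union, mem_Icc, mem_filter, mem_Icc]
    rcases le_or_gt (n : ℝ) (√N) with h5 | h5
    · left
      exact ⟨hn.1.1, Nat.le_floor h5⟩
    · right
      refine ⟨hn.1, ?_⟩
      rw [sp_smooth (by omega) hn.2]
      exact h5
  have h6 := (card_le_card hsub).trans (card_union_le _ _)
  rw [Nat.card_Icc] at h6
  have h7 : (((Icc 1 N).filter (fun n => ∀ p : ℕ, p.Prime → p ∣ n → p ≤ y)).card : ℝ) ≤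
      (⌊√(N : ℝ)⌋₊ : ℝ) + (((Icc 1 N).filter (fun m => √(N : ℝ) < (sp y m : ℝ))).card : ℝ) := by
    have h8 : ((Icc 1 N).filter (fun n => ∀ p : ℕ, p.Prime → p ∣ n → p ≤ y)).card ≤
      ⌊√(N : ℝ)⌋₊ + ((Icc 1 N).filter (fun m => √(N : ℝ) < (sp y m : ℝ))).card := by omega
    exact_mod_cast h8
  have h9 : (⌊√(N : ℝ)⌋₊ : ℝ) ≤ √N := Nat.floor_le (Real.sqrt_nonneg _)
  have h10 : (N : ℝ) * √N ^ (-β) * (C * Real.log y * Real.exp (4 * β * (y : ℝ) ^ β * (Real.log y + C))) ≤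
      (C * Real.exp (Real.exp (1 / 4) * (1 + C)) + 1) * N * Real.log y * Real.exp (-(Real.log N / (8 * Real.log y))) := by
    rw [hYβ]
    have h11 : (N : ℝ) * Real.exp (-(Real.log N / (8 * Real.log y))) *
        (C * Real.log y * Real.exp (4 * β * (y : ℝ) ^ β * (Real.log y + C))) ≤
        (N : ℝ) * Real.exp (-(Real.log N / (8 * Real.log y))) *
        (C * Real.log y * Real.exp (Real.exp (1 / 4) * (1 + C))) := by gcongr
    refine h11.trans ?_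
    have h12 : 0 ≤ (N : ℝ) * Real.log y * Real.exp (-(Real.log N / (8 * Real.log y))) := by positivity
    nlinarith
  linarith

/-- few integers are divisible by the square of a prime `> z` or by a prime power `≥ z ^ 2` of a prime `≤ z` -/
lemma powers_few (N z : ℕ) (hz : 1 ≤ z) :
    (((Icc 1 N).filter (fun n => (∃ p : ℕ, p.Prime ∧ z < p ∧ p ^ 2 ∣ n) ∨
      ∃ q j : ℕ, q.Prime ∧ q ≤ z ∧ z ^ 2 ≤ q ^ j ∧ q ^ j ∣ n)).card : ℝ) ≤ 2 * N / z := by
  have hz0 : (0 : ℝ) < z := by exact_mod_cast hz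
  have h1 := few_square N z hz
  have hsub : (Icc 1 N).filter (fun n => ∃ q j : ℕ, q.Prime ∧ q ≤ z ∧ z ^ 2 ≤ q ^ j ∧ q ^ j ∣ n) ⊆
      (Icc 2 z).biUnion (fun q => (Ioc 0 N).filter (fun n => q ^ Nat.clog q (z ^ 2) ∣ n)) := by
    intro n hn
    rw [mem_filter, mem_Icc] at hn
    obtain ⟨⟨hn1, hnN⟩, q, j, hq, hqz, hj, hd⟩ := hn
    rw [mem_biUnion]
    refine ⟨q, mem_Icc.2 ⟨hq.two_le, hqz⟩, ?_⟩
    rw [mem_filter, mem_Ioc]
    refine ⟨⟨by omega, hnN⟩, (pow_dvd_pow q ?_).trans hd⟩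
    exact Nat.clog_le_of_le_pow hj
  have h2 : (((Icc 1 N).filter (fun n => ∃ q j : ℕ, q.Prime ∧ q ≤ z ∧ z ^ 2 ≤ q ^ j ∧ q ^ j ∣ n)).card : ℝ) ≤ N / z := by
    have h3 : (((Icc 1 N).filter (fun n => ∃ q j : ℕ, q.Prime ∧ q ≤ z ∧ z ^ 2 ≤ q ^ j ∧ q ^ j ∣ n)).card : ℝ) ≤
        ∑ q ∈ Icc 2 z, (((Ioc 0 N).filter (fun n => q ^ Nat.clog q (z ^ 2) ∣ n)).card : ℝ) := by
      have := (card_le_card hsub).trans card_biUnion_le
      exact_mod_cast this
    refine h3.trans ?_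
    have h4 : ∀ q ∈ Icc 2 z, (((Ioc 0 N).filter (fun n => q ^ Nat.clog q (z ^ 2) ∣ n)).card : ℝ) ≤ N / (z : ℝ) ^ 2 := by
      intro q hq
      rw [mem_Icc] at hq
      rw [Nat.Ioc_filter_dvd_card_eq_div]
      refine (Nat.cast_div_le (α := ℝ)).trans ?_
      have h5 : z ^ 2 ≤ q ^ Nat.clog q (z ^ 2) := Nat.le_pow_clog (by omega) _
      have h6 : (z : ℝ) ^ 2 ≤ ((q ^ Nat.clog q (z ^ 2) : ℕ) : ℝ) := by exact_mod_cast h5
      exact div_le_div_of_nonneg_left (Nat.cast_nonneg _) (by positivity) h6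
    refine (sum_le_sum h4).trans ?_
    rw [sum_const, nsmul_eq_mul, Nat.card_Icc]
    have h7 : ((z + 1 - 2 : ℕ) : ℝ) ≤ z := by
      have : z + 1 - 2 ≤ z := by omega
      exact_mod_cast this
    calc ((z + 1 - 2 : ℕ) : ℝ) * (N / (z : ℝ) ^ 2) ≤ z * (N / (z : ℝ) ^ 2) :=
          mul_le_mul_of_nonneg_right h7 (by positivity)
      _ = N / z := by
          field_simp
  have h8 : ((Icc 1 N).filter (fun n => (∃ p : ℕ, p.Prime ∧ z < p ∧ p ^ 2 ∣ n) ∨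
      ∃ q j : ℕ, q.Prime ∧ q ≤ z ∧ z ^ 2 ≤ q ^ j ∧ q ^ j ∣ n)).card ≤
      ((Icc 1 N).filter (fun m => ∃ p : ℕ, p.Prime ∧ z < p ∧ p ^ 2 ∣ m)).card +
      ((Icc 1 N).filter (fun n => ∃ q j : ℕ, q.Prime ∧ q ≤ z ∧ z ^ 2 ≤ q ^ j ∧ q ^ j ∣ n)).card := by
    rw [filter_or]
    exact card_union_le _ _
  have h9 : (((Icc 1 N).filter (fun n => (∃ p : ℕ, p.Prime ∧ z < p ∧ p ^ 2 ∣ n) ∨
      ∃ q j : ℕ, q.Prime ∧ q ≤ z ∧ z ^ 2 ≤ q ^ j ∧ q ^ j ∣ n)).card : ℝ) ≤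
      (((Icc 1 N).filter (fun m => ∃ p : ℕ, p.Prime ∧ z < p ∧ p ^ 2 ∣ m)).card : ℝ) +
      (((Icc 1 N).filter (fun n => ∃ q j : ℕ, q.Prime ∧ q ≤ z ∧ z ^ 2 ≤ q ^ j ∧ q ^ j ∣ n)).card : ℝ) := by
    exact_mod_cast h8
  have h10 : 2 * (N : ℝ) / z = N / z + N / z := by ring
  rw [h10]
  linarith

end Pool.Agent.N375.AV
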