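import Mathlib
import Pool.Agent.N375.AV.A

set_option autoImplicit false

/-! Functions dominated by the largest prime factor keep away from thin sets: core estimate. -/

namespace Pool.Agent.N375.AV

open Finset Classical

/-- the exceptional cases -/
lemma decomp {n z : ℕ} (hn : 1 ≤ n) (_hz : 1 ≤ z) (h1 : ¬ ∀ p : ℕ, p.Prime → p ∣ n → p ≤ z ^ 2)
    (h2 : ¬ ((∃ p : ℕ, p.Prime ∧ z < p ∧ p ^ 2 ∣ n) ∨ ∃ q j : ℕ, q.Prime ∧ q ≤ z ∧ z ^ 2 ≤ q ^ j ∧ q ^ j ∣ n)) :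
    ∃ m p : ℕ, 1 ≤ m ∧ p.Prime ∧ z ^ 2 < p ∧ Below m p ∧ n = m * p := by
  have hn0 : n ≠ 0 := by omega
  push Not at h1
  obtain ⟨p0, hp0, hp0n, hp0y⟩ := h1
  push Not at h2
  obtain ⟨h2, h3⟩ := h2
  have hne : n.primeFactors.Nonempty := ⟨p0, Nat.mem_primeFactors.2 ⟨hp0, hp0n, hn0⟩⟩
  obtain ⟨p, hp⟩ : ∃ p, p = n.primeFactors.max' hne := ⟨_, rfl⟩
  have hpm : p ∈ n.primeFactors := by rw [hp]; exact max'_mem _ _
  have hmax : ∀ q ∈ n.primeFactors, q ≤ p := by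
    intro q hq
    rw [hp]
    exact le_max' _ _ hq
  have hpp := Nat.prime_of_mem_primeFactors hpm
  have hpn := Nat.dvd_of_mem_primeFactors hpm
  have hyp : z ^ 2 < p := lt_of_lt_of_le hp0y (hmax p0 (Nat.mem_primeFactors.2 ⟨hp0, hp0n, hn0⟩))
  have hzz : z ≤ z ^ 2 := Nat.le_self_pow (by norm_num) z
  obtain ⟨m, hm⟩ := hpn
  have hm1 : 1 ≤ m := by
    rcases Nat.eq_zero_or_pos m with h | h
    · rw [h, mul_zero] at hm
      omega
    · exact h
  have hpm' : ¬ p ∣ m := by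
    intro hd
    apply h2 p hpp (by omega)
    rw [hm, pow_two]
    exact mul_dvd_mul_left p hd
  refine ⟨m, p, hm1, hpp, hyp, ?_, by rw [hm, mul_comm]⟩
  intro q j hq hj hd
  have hdn : q ^ j ∣ n := by
    rw [hm]
    exact hd.mul_left p
  rcases le_or_gt q z with hqz | hqz
  · by_contra hcon
    exact h3 q j hq hqz (by omega) hdn
  · have hj1 : j = 1 := by
      by_contra hj1
      have : q ^ 2 ∣ n := (pow_dvd_pow q (by omega)).trans hdn
      exact h2 q hq hqz this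
    rw [hj1, pow_one] at hd hdn ⊢
    have hqp := hmax q (Nat.mem_primeFactors.2 ⟨hq, hdn, hn0⟩)
    rcases lt_or_eq_of_le hqp with h | h
    · exact h
    · rw [h] at hd
      exact absurd hd hpm'

lemma sum_div_le (N : ℕ) (_hN : 1 ≤ N) : ∑ m ∈ Icc 1 N, (((N / m : ℕ) : ℕ) : ℝ) ≤ N * (1 + Real.log N) := by
  have h1 := harmonic_le_one_add_log N
  rw [harmonic_eq_sum_Icc] at h1
  push_cast at h1
  calc ∑ m ∈ Icc 1 N, (((N / m : ℕ) : ℕ) : ℝ) ≤ ∑ m ∈ Icc 1 N, (N : ℝ) * (m : ℝ)⁻¹ := by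
        apply sum_le_sum
        intro m _
        exact (Nat.cast_div_le (α := ℝ)).trans (le_of_eq (div_eq_mul_inv _ _))
    _ = N * ∑ m ∈ Icc 1 N, (m : ℝ)⁻¹ := by rw [mul_sum]
    _ ≤ _ := mul_le_mul_of_nonneg_left h1 (Nat.cast_nonneg _)

/-- the core estimate -/
theorem core {f : ℕ → ℕ} (hf : PD f) : ∃ C : ℝ, 1 ≤ C ∧ ∃ C' : ℕ, ∀ N z : ℕ, 1 ≤ N → 2 ≤ z → C ≤ z →
    ∀ (E : Set ℕ) (σ : ℝ), 0 ≤ σ →
    (∀ X : ℕ, z ^ 2 ≤ X → (((range (X + 1)).filter (fun v => v ∈ E)).card : ℝ) ≤ σ * X) →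
    (((Icc 1 N).filter (fun n => f n ∈ E)).card : ℝ) ≤
      √N + C * N * Real.log z * Real.exp (-(Real.log N / (16 * Real.log z))) + 2 * N / z +
        σ * C * N * (1 + Real.log N) ^ C' := by
  obtain ⟨C, hC⟩ := hf
  obtain ⟨C₁, hC₁, hsm⟩ := smooth_few
  refine ⟨2 * C₁ + 2 * (C + 1), by
    have : (0 : ℝ) ≤ C := Nat.cast_nonneg _
    linarith, C + 1, fun N z hN hz2 hCz E σ hσ hE => ?_⟩
  have hN1 : (1 : ℝ) ≤ N := by exact_mod_cast hN
  have hz1 : 1 ≤ z := by omega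
  have hC0 : (0 : ℝ) ≤ C := Nat.cast_nonneg _
  have hCz' : C ≤ z := by
    have : (C : ℝ) ≤ z := by linarith
    exact_mod_cast this
  have hL : 0 ≤ Real.log N := Real.log_nonneg hN1
  obtain ⟨Λ, hΛ⟩ : ∃ Λ : ℕ, Λ = ⌈(1 + Real.log N) ^ C⌉₊ := ⟨_, rfl⟩
  have hp1 : (1 : ℝ) ≤ (1 + Real.log N) ^ C := one_le_pow₀ (by linarith)
  have hΛ1 : (1 + Real.log N) ^ C ≤ Λ := by rw [hΛ]; exact Nat.le_ceil _
  have hΛ2 : (Λ : ℝ) ≤ 2 * (1 + Real.log N) ^ C := by
    have := (Nat.ceil_lt_add_one (a := (1 + Real.log N) ^ C) (by linarith)).le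
    rw [hΛ]
    linarith
  have hΛ0 : 1 ≤ Λ := by
    have : (1 : ℝ) ≤ Λ := hp1.trans hΛ1
    exact_mod_cast this
  -- the decomposition
  have hsub : (Icc 1 N).filter (fun n => f n ∈ E) ⊆
      ((Icc 1 N).filter (fun n => ∀ p : ℕ, p.Prime → p ∣ n → p ≤ z ^ 2)) ∪
      (((Icc 1 N).filter (fun n => (∃ p : ℕ, p.Prime ∧ z < p ∧ p ^ 2 ∣ n) ∨
        ∃ q j : ℕ, q.Prime ∧ q ≤ z ∧ z ^ 2 ≤ q ^ j ∧ q ^ j ∣ n)) ∪
      (Icc 1 N).biUnion (fun m => ((Icc 1 (N / m)).filter (fun p => p.Prime ∧ z ^ 2 < p ∧ Below m p ∧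
        f (m * p) ∈ E)).image (fun p => m * p))) := by
    intro n hn
    rw [mem_filter, mem_Icc] at hn
    obtain ⟨⟨hn1, hnN⟩, hnE⟩ := hn
    rw [mem_union, mem_union]
    by_cases h1 : ∀ p : ℕ, p.Prime → p ∣ n → p ≤ z ^ 2
    · left
      exact mem_filter.2 ⟨mem_Icc.2 ⟨hn1, hnN⟩, h1⟩
    · right
      by_cases h2 : (∃ p : ℕ, p.Prime ∧ z < p ∧ p ^ 2 ∣ n) ∨ ∃ q j : ℕ, q.Prime ∧ q ≤ z ∧ z ^ 2 ≤ q ^ j ∧ q ^ j ∣ n
      · left
        exact mem_filter.2 ⟨mem_Icc.2 ⟨hn1, hnN⟩, h2⟩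
      · right
        obtain ⟨m, p, hm1, hp, hyp, hb, hnmp⟩ := decomp hn1 hz1 h1 h2
        rw [mem_biUnion]
        have hmn : m ≤ n := by
          rw [hnmp]
          exact Nat.le_mul_of_pos_right m hp.pos
        refine ⟨m, mem_Icc.2 ⟨hm1, hmn.trans hnN⟩, ?_⟩
        rw [mem_image]
        refine ⟨p, ?_, hnmp.symm⟩
        rw [mem_filter, mem_Icc]
        refine ⟨⟨hp.one_le, ?_⟩, hp, hyp, hb, ?_⟩
        · rw [Nat.le_div_iff_mul_le (by omega), mul_comm, ← hnmp]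
          exact hnN
        · rw [← hnmp]
          exact hnE
  have hcard : (((Icc 1 N).filter (fun n => f n ∈ E)).card : ℝ) ≤
      (((Icc 1 N).filter (fun n => ∀ p : ℕ, p.Prime → p ∣ n → p ≤ z ^ 2)).card : ℝ) +
      ((((Icc 1 N).filter (fun n => (∃ p : ℕ, p.Prime ∧ z < p ∧ p ^ 2 ∣ n) ∨
        ∃ q j : ℕ, q.Prime ∧ q ≤ z ∧ z ^ 2 ≤ q ^ j ∧ q ^ j ∣ n)).card : ℝ) +
      ∑ m ∈ Icc 1 N, ((((Icc 1 (N / m)).filter (fun p => p.Prime ∧ z ^ 2 < p ∧ Below m p ∧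
        f (m * p) ∈ E)).image (fun p => m * p)).card : ℝ)) := by
    have h1 := (card_le_card hsub).trans (card_union_le _ _)
    have h2 := card_union_le ((Icc 1 N).filter (fun n => (∃ p : ℕ, p.Prime ∧ z < p ∧ p ^ 2 ∣ n) ∨
        ∃ q j : ℕ, q.Prime ∧ q ≤ z ∧ z ^ 2 ≤ q ^ j ∧ q ^ j ∣ n))
      ((Icc 1 N).biUnion (fun m => ((Icc 1 (N / m)).filter (fun p => p.Prime ∧ z ^ 2 < p ∧ Below m p ∧
        f (m * p) ∈ E)).image (fun p => m * p)))
    have h3 := card_biUnion_le (s := Icc 1 N) (t := fun m => ((Icc 1 (N / m)).filter (fun p => p.Prime ∧ z ^ 2 < p ∧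
      Below m p ∧ f (m * p) ∈ E)).image (fun p => m * p))
    have h4 := h1.trans (Nat.add_le_add_left (h2.trans (Nat.add_le_add_left h3 _)) _)
    exact_mod_cast h4
  -- the main part
  have hmain : ∀ m ∈ Icc 1 N, ((((Icc 1 (N / m)).filter (fun p => p.Prime ∧ z ^ 2 < p ∧ Below m p ∧
        f (m * p) ∈ E)).image (fun p => m * p)).card : ℝ) ≤
        σ * (2 * (C + 1) * (1 + Real.log N) ^ C) * ((N / m : ℕ) : ℝ) := by
    intro m hm
    rw [mem_Icc] at hm
    obtain ⟨F, hF⟩ : ∃ F : Finset ℕ, F = (Icc 1 (N / m)).filter (fun p => p.Prime ∧ z ^ 2 < p ∧ Below m p ∧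
        f (m * p) ∈ E) := ⟨_, rfl⟩
    rw [← hF]
    have h0 : ((F.image (fun p => m * p)).card : ℝ) ≤ (F.card : ℝ) := by exact_mod_cast card_image_le
    refine h0.trans ?_
    have hR : 0 ≤ σ * (2 * (C + 1) * (1 + Real.log N) ^ C) * ((N / m : ℕ) : ℝ) := by positivity
    rcases F.eq_empty_or_nonempty with he | ⟨p₀, hp₀⟩
    · rw [he, card_empty, Nat.cast_zero]
      exact hR
    · rw [hF, mem_filter, mem_Icc] at hp₀
      obtain ⟨X, hX⟩ : ∃ X : ℕ, X = (C + 1) * (N / m) * Λ := ⟨_, rfl⟩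
      have hXy : z ^ 2 ≤ X := by
        have h1 : z ^ 2 ≤ N / m := by omega
        have h2 : N / m ≤ X := by
          rw [hX]
          calc N / m = 1 * (N / m) * 1 := by ring
            _ ≤ (C + 1) * (N / m) * Λ := Nat.mul_le_mul (Nat.mul_le_mul (by omega) le_rfl) hΛ0
        omega
      have hzz : z ≤ z ^ 2 := Nat.le_self_pow (by norm_num) z
      have h1 : F.card ≤ ((range (X + 1)).filter (fun v => v ∈ E)).card := by
        apply card_le_card_of_injOn (fun p => f (m * p))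
        · intro p hp
          rw [mem_coe, hF, mem_filter, mem_Icc] at hp
          obtain ⟨⟨hp1, hpN⟩, hpp, hyp, hb, hE'⟩ := hp
          rw [mem_coe, mem_filter, mem_range]
          refine ⟨?_, hE'⟩
          have h2 := (hC m hm.1).1 p hpp (by omega) hb
          have hmp : m * p ≤ N := by
            rw [Nat.le_div_iff_mul_le (by omega)] at hpN
            rw [mul_comm]
            exact hpN
          have hmp0 : 0 < m * p := Nat.mul_pos (by omega) hpp.pos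
          have h3 : Real.log ((m : ℝ) * p) ≤ Real.log N := by
            apply Real.log_le_log
            · exact_mod_cast hmp0
            · exact_mod_cast hmp
          have h3' : 0 ≤ Real.log ((m : ℝ) * p) := Real.log_nonneg (by exact_mod_cast hmp0)
          have h4 : (f (m * p) : ℝ) ≤ (X : ℝ) := by
            rw [hX]
            push_cast
            calc (f (m * p) : ℝ) ≤ C * p * (1 + Real.log (m * p)) ^ C := h2
              _ ≤ (C + 1) * ((N / m : ℕ) : ℝ) * Λ := by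
                  apply mul_le_mul _ _ (by positivity) (by positivity)
                  · apply mul_le_mul (by linarith) (by exact_mod_cast hpN) (Nat.cast_nonneg _) (by linarith)
                  · exact (pow_le_pow_left₀ (by linarith) (by linarith) C).trans hΛ1
          have h5 : f (m * p) ≤ X := by exact_mod_cast h4
          exact Nat.lt_succ_of_le h5
        · intro p hp q hq hpq
          rw [mem_coe, hF, mem_filter, mem_Icc] at hp hq
          exact (hC m hm.1).2 p q hp.2.1 hq.2.1 (by omega) (by omega) hp.2.2.2.1 hq.2.2.2.1 hpq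
      have h2 := hE X hXy
      calc (F.card : ℝ) ≤ (((range (X + 1)).filter (fun v => v ∈ E)).card : ℝ) := by exact_mod_cast h1
        _ ≤ σ * X := h2
        _ = σ * ((C + 1) * ((N / m : ℕ) : ℝ) * Λ) := by
            rw [hX]
            push_cast
            ring
        _ ≤ σ * ((C + 1) * ((N / m : ℕ) : ℝ) * (2 * (1 + Real.log N) ^ C)) := by gcongr
        _ = _ := by ring
  have hsum : ∑ m ∈ Icc 1 N, ((((Icc 1 (N / m)).filter (fun p => p.Prime ∧ z ^ 2 < p ∧ Below m p ∧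
        f (m * p) ∈ E)).image (fun p => m * p)).card : ℝ) ≤
        σ * (2 * (C + 1)) * N * (1 + Real.log N) ^ (C + 1) := by
    refine (sum_le_sum hmain).trans ?_
    rw [← mul_sum]
    have h1 := sum_div_le N hN
    calc σ * (2 * (C + 1) * (1 + Real.log N) ^ C) * ∑ m ∈ Icc 1 N, ((N / m : ℕ) : ℝ)
        ≤ σ * (2 * (C + 1) * (1 + Real.log N) ^ C) * (N * (1 + Real.log N)) :=
          mul_le_mul_of_nonneg_left h1 (by positivity)
      _ = _ := by
          rw [pow_succ]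
          ring
  have hA := hsm (z ^ 2) N (by nlinarith) hN
  have hlogz : Real.log ((z ^ 2 : ℕ) : ℝ) = 2 * Real.log z := by
    push_cast
    rw [Real.log_pow]
    norm_num
  rw [hlogz] at hA
  have hB : (((Icc 1 N).filter (fun n => (∃ p : ℕ, p.Prime ∧ z < p ∧ p ^ 2 ∣ n) ∨
        ∃ q j : ℕ, q.Prime ∧ q ≤ z ∧ z ^ 2 ≤ q ^ j ∧ q ^ j ∣ n)).card : ℝ) ≤ 2 * N / z := powers_few N z hz1
  have hlz : 0 ≤ Real.log z := Real.log_nonneg (by exact_mod_cast hz1)
  have e1 : C₁ * N * (2 * Real.log z) * Real.exp (-(Real.log N / (8 * (2 * Real.log z)))) ≤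
      (2 * C₁ + 2 * (C + 1)) * N * Real.log z * Real.exp (-(Real.log N / (16 * Real.log z))) := by
    rw [show 8 * (2 * Real.log z) = 16 * Real.log z by ring]
    have : 0 ≤ 2 * ((C : ℝ) + 1) * N * Real.log z * Real.exp (-(Real.log N / (16 * Real.log z))) := by positivity
    linarith
  have e2 : σ * (2 * (C + 1)) * N * (1 + Real.log N) ^ (C + 1) ≤
      σ * (2 * C₁ + 2 * (C + 1)) * N * (1 + Real.log N) ^ (C + 1) := by
    have : 0 ≤ σ * (2 * C₁) * N * (1 + Real.log N) ^ (C + 1) := by positivity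
    linarith
  linarith

end Pool.Agent.N375.AV
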