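import Mathlib
import Pool.Agent.N375.AV.B

set_option autoImplicit false

/-! Functions dominated by the largest prime factor, and compositions of such functions, keep away from thin sets. -/

namespace Pool.Agent.N375.AV

open Finset Classical

/-- thin sets: at most `K X exp (- c (log X)^β)` elements up to `X` -/
def Thin (β c K : ℝ) (E : Set ℕ) : Prop := ∀ X : ℕ, 1 ≤ X →
  (((range (X + 1)).filter (fun v => v ∈ E)).card : ℝ) ≤ K * X * Real.exp (-(c * Real.log X ^ β))

lemma absorb (M : ℕ) {b c : ℝ} (hb : 0 < b) (hc : 0 < c) :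
    ∃ K : ℝ, 0 ≤ K ∧ ∀ t : ℝ, 0 ≤ t → (1 + t) ^ M ≤ K * Real.exp (c * t ^ b) := by
  obtain ⟨k, hk⟩ := exists_nat_ge ((M : ℝ) / b)
  have hkb : (M : ℝ) ≤ k * b := by rwa [div_le_iff₀ hb] at hk
  refine ⟨2 ^ M * (1 + k.factorial / c ^ k), by positivity, fun t ht => ?_⟩
  have htb : 0 ≤ t ^ b := Real.rpow_nonneg ht _
  have he1 : 1 ≤ Real.exp (c * t ^ b) := Real.one_le_exp (by positivity)
  have he0 := Real.exp_pos (c * t ^ b)
  have hfac : 0 ≤ (k.factorial : ℝ) / c ^ k := by positivity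
  rcases le_or_gt t 1 with h | h
  · calc (1 + t) ^ M ≤ 2 ^ M := pow_le_pow_left₀ (by linarith) (by linarith) M
      _ = 2 ^ M * (1 + 0) * 1 := by ring
      _ ≤ 2 ^ M * (1 + k.factorial / c ^ k) * Real.exp (c * t ^ b) := by
          apply mul_le_mul _ he1 (by norm_num) (by positivity)
          apply mul_le_mul_of_nonneg_left _ (by positivity)
          linarith
  · have h1 : t ^ M ≤ (t ^ b) ^ k := by
      rw [← Real.rpow_natCast t M, ← Real.rpow_natCast (t ^ b) k, ← Real.rpow_mul ht]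
      apply Real.rpow_le_rpow_of_exponent_le h.le
      rw [mul_comm]
      exact hkb
    have h2 : (c * t ^ b) ^ k / k.factorial ≤ Real.exp (c * t ^ b) :=
      Real.pow_div_factorial_le_exp _ (by positivity) k
    have h3 : (t ^ b) ^ k ≤ k.factorial / c ^ k * Real.exp (c * t ^ b) := by
      rw [mul_pow, div_le_iff₀ (by positivity)] at h2
      rw [div_mul_eq_mul_div, le_div_iff₀ (by positivity)]
      linarith
    calc (1 + t) ^ M ≤ (2 * t) ^ M := pow_le_pow_left₀ (by linarith) (by linarith) M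
      _ = 2 ^ M * t ^ M := mul_pow _ _ _
      _ ≤ 2 ^ M * (k.factorial / c ^ k * Real.exp (c * t ^ b)) := by
          apply mul_le_mul_of_nonneg_left (h1.trans h3) (by positivity)
      _ ≤ 2 ^ M * (1 + k.factorial / c ^ k) * Real.exp (c * t ^ b) := by
          rw [mul_assoc]
          apply mul_le_mul_of_nonneg_left _ (by positivity)
          linarith

/-- **Preimages of thin sets are thin.** -/
theorem preimage {f : ℕ → ℕ} (hf : PD f) {β c K : ℝ} (hβ : 0 < β) (hβ1 : β ≤ 1) (hc : 0 < c) (hK : 0 ≤ K) :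
    ∃ c' K' : ℝ, 0 < c' ∧ 0 ≤ K' ∧ ∀ E : Set ℕ, Thin β c K E → Thin (β / (1 + β)) c' K' (f ⁻¹' E) := by
  obtain ⟨C, hC1, C', hC⟩ := core hf
  obtain ⟨β', hβ'⟩ : ∃ β', β' = β / (1 + β) := ⟨_, rfl⟩
  obtain ⟨γ, hγ⟩ : ∃ γ, γ = 1 / (1 + β) := ⟨_, rfl⟩
  have hγ0 : 0 < γ := by rw [hγ]; positivity
  have hβ'0 : 0 < β' := by rw [hβ']; positivity
  have hγβ : γ * β = β' := by rw [hγ, hβ']; ring
  have hsum : γ + β' = 1 := by
    rw [hγ, hβ']
    field_simp
  have hle : β' ≤ γ := by
    rw [hγ, hβ']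
    apply div_le_div_of_nonneg_right hβ1 (by linarith)
  have hγ1 : γ ≤ 1 := by linarith
  have hβ'1 : β' ≤ 1 := by linarith
  obtain ⟨A, hA⟩ : ∃ A : ℝ, A = 1 + Real.log (2 * C + 4) := ⟨_, rfl⟩
  have hl2 : 0 ≤ Real.log (2 * C + 4) := Real.log_nonneg (by linarith)
  have hA1 : 1 ≤ A := by rw [hA]; linarith
  obtain ⟨c₃, hc₃⟩ : ∃ c₃ : ℝ, c₃ = min (1 / (32 * A)) (min c 1) := ⟨_, rfl⟩
  have hc₃0 : 0 < c₃ := by
    rw [hc₃]
    exact lt_min (by positivity) (lt_min hc one_pos)
  have hc₃a : c₃ ≤ 1 / (32 * A) := by rw [hc₃]; exact min_le_left _ _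
  have hc₃c : c₃ ≤ c := by rw [hc₃]; exact (min_le_right _ _).trans (min_le_left _ _)
  have hc₃1 : c₃ ≤ 1 := by rw [hc₃]; exact (min_le_right _ _).trans (min_le_right _ _)
  have hA32 : 1 / (32 * A) ≤ 1 / 32 := by
    apply one_div_le_one_div_of_le (by norm_num)
    linarith
  have hc₃2 : c₃ ≤ 1 / 2 := by linarith
  obtain ⟨K₄, hK₄, habs⟩ := absorb (C' + 1) hβ'0 (c := c₃ / 2) (by positivity)
  refine ⟨c₃ / 2, (3 + 3 + 6 + 6 * C * A + K * C) * K₄, by positivity, by positivity, fun E hE => ?_⟩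
  rw [← hβ']
  intro N hN
  have hN1 : (1 : ℝ) ≤ N := by exact_mod_cast hN
  have hN0 : (0 : ℝ) < N := by linarith
  obtain ⟨L, hL⟩ : ∃ L, L = Real.log N := ⟨_, rfl⟩
  have hL0 : 0 ≤ L := by rw [hL]; exact Real.log_nonneg hN1
  rw [← hL]
  obtain ⟨z, hz⟩ : ∃ z : ℕ, z = ⌈(C + 2) * Real.exp (L ^ γ)⌉₊ := ⟨_, rfl⟩
  have hLγ : 0 ≤ L ^ γ := Real.rpow_nonneg hL0 _
  have hLβ : 0 ≤ L ^ β' := Real.rpow_nonneg hL0 _
  have heγ : 1 ≤ Real.exp (L ^ γ) := Real.one_le_exp hLγ
  have hz1 : (C + 2) * Real.exp (L ^ γ) ≤ z := by rw [hz]; exact Nat.le_ceil _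
  have hz2 : (z : ℝ) ≤ (2 * C + 4) * Real.exp (L ^ γ) := by
    have := (Nat.ceil_lt_add_one (a := (C + 2) * Real.exp (L ^ γ)) (by positivity)).le
    have h1 : 1 ≤ (C + 2) * Real.exp (L ^ γ) := one_le_mul_of_one_le_of_one_le (by linarith) heγ
    rw [hz]
    linarith
  have hzC : C + 2 ≤ z := by
    have := mul_le_mul_of_nonneg_left heγ (by linarith : 0 ≤ C + 2)
    linarith
  have hz2' : 2 ≤ z := by
    have : (2 : ℝ) ≤ z := by linarith
    exact_mod_cast this
  have hz0 : (0 : ℝ) < z := by linarith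
  have hze : Real.exp (L ^ γ) ≤ z := by
    have := mul_le_mul_of_nonneg_right (by linarith : 1 ≤ C + 2) (Real.exp_pos (L ^ γ)).le
    linarith
  have hlz1 : L ^ γ ≤ Real.log z := by
    rw [Real.le_log_iff_exp_le hz0]
    exact hze
  have hlz2 : Real.log z ≤ A * (1 + L ^ γ) := by
    have h1 := Real.log_le_log hz0 hz2
    rw [Real.log_mul (by linarith) (Real.exp_pos _).ne', Real.log_exp] at h1
    rw [hA]
    have := mul_nonneg hl2 hLγ
    linarith
  -- comparison of powers of `L`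
  have hpow1 : L ^ β' ≤ 1 + L := by
    rcases le_or_gt L 1 with h | h
    · have := Real.rpow_le_one hL0 h hβ'0.le
      linarith
    · have := Real.rpow_le_rpow_of_exponent_le h.le hβ'1
      rw [Real.rpow_one] at this
      linarith
  have hpow2 : L ^ β' ≤ 1 + L ^ γ := by
    rcases le_or_gt L 1 with h | h
    · have := Real.rpow_le_one hL0 h hβ'0.le
      linarith
    · have := Real.rpow_le_rpow_of_exponent_le h.le hle
      linarith
  have hpow3 : L ^ γ ≤ 1 + L := by
    rcases le_or_gt L 1 with h | h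
    · have := Real.rpow_le_one hL0 h hγ0.le
      linarith
    · have := Real.rpow_le_rpow_of_exponent_le h.le hγ1
      rw [Real.rpow_one] at this
      linarith
  obtain ⟨W, hW⟩ : ∃ W, W = Real.exp (-(c₃ * L ^ β')) := ⟨_, rfl⟩
  have hW0 : 0 < W := by rw [hW]; exact Real.exp_pos _
  have he3 : Real.exp 1 ≤ 3 := by
    have := Real.exp_one_lt_d9
    linarith
  -- (a)
  have ha : √(N : ℝ) ≤ 3 * N * W := by
    have h1 : √(N : ℝ) = N * Real.exp (-(L / 2)) := by
      rw [hL, ← Real.log_sqrt hN0.le, Real.exp_neg, Real.exp_log (Real.sqrt_pos.2 hN0)]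
      field_simp
      exact Real.sq_sqrt hN0.le
    have h2 : Real.exp (-(L / 2)) ≤ Real.exp 1 * W := by
      rw [hW, ← Real.exp_add]
      apply Real.exp_le_exp.2
      have := mul_le_mul hc₃2 hpow1 hLβ (by norm_num : (0 : ℝ) ≤ 1 / 2)
      linarith
    rw [h1]
    calc (N : ℝ) * Real.exp (-(L / 2)) ≤ N * (Real.exp 1 * W) := by gcongr
      _ ≤ N * (3 * W) := by gcongr
      _ = _ := by ring
  -- (b)
  have hb : Real.exp (-(L / (16 * Real.log z))) ≤ 3 * W := by
    have h2 : Real.exp (-(L / (16 * Real.log z))) ≤ Real.exp 1 * W := by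
      rw [hW, ← Real.exp_add]
      apply Real.exp_le_exp.2
      rcases le_or_gt L 1 with h | h
      · have h3 : 0 ≤ L / (16 * Real.log z) := by
          apply div_nonneg hL0
          linarith
        have h4 := Real.rpow_le_one hL0 h hβ'0.le
        have h5 := mul_le_mul hc₃1 h4 hLβ zero_le_one
        linarith
      · have hLγ1 : 1 ≤ L ^ γ := Real.one_le_rpow h.le hγ0.le
        have h3 : 16 * Real.log z ≤ 32 * A * L ^ γ := by
          have := mul_le_mul_of_nonneg_left (by linarith : 1 + L ^ γ ≤ 2 * L ^ γ) (by linarith : 0 ≤ A)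
          linarith
        have h4 : L / (32 * A * L ^ γ) ≤ L / (16 * Real.log z) :=
          div_le_div_of_nonneg_left hL0 (by linarith) h3
        have h5 : L / (32 * A * L ^ γ) = 1 / (32 * A) * L ^ β' := by
          have h6 : L = L ^ γ * L ^ β' := by
            rw [← Real.rpow_add (by linarith), hsum, Real.rpow_one]
          have h7 : L ^ γ ≠ 0 := by linarith
          calc L / (32 * A * L ^ γ) = (L ^ γ * L ^ β') / (32 * A * L ^ γ) := by rw [← h6]
            _ = _ := by
              field_simp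
        have h6 := mul_le_mul_of_nonneg_right hc₃a hLβ
        linarith
    refine h2.trans ?_
    gcongr
  -- (c)
  have hcc : 2 * (N : ℝ) / z ≤ 6 * N * W := by
    have h1 : 1 / (z : ℝ) ≤ 3 * W := by
      have h2 : 1 / (z : ℝ) ≤ Real.exp (-(L ^ γ)) := by
        rw [Real.exp_neg, one_div]
        exact inv_anti₀ (Real.exp_pos _) hze
      have h3 : Real.exp (-(L ^ γ)) ≤ Real.exp 1 * W := by
        rw [hW, ← Real.exp_add]
        apply Real.exp_le_exp.2
        have := mul_le_of_le_one_left hLβ hc₃1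
        linarith
      refine h2.trans (h3.trans ?_)
      gcongr
    calc 2 * (N : ℝ) / z = 2 * N * (1 / z) := by ring
      _ ≤ 2 * N * (3 * W) := by gcongr
      _ = _ := by ring
  -- (d)
  have hd := hC N z hN hz2' (by linarith) E (K * Real.exp (-(c * L ^ β'))) (by positivity) (by
    intro X hX
    have hX1 : 1 ≤ X := le_trans (Nat.one_le_pow 2 z (by omega)) hX
    refine (hE X hX1).trans ?_
    have h1 : L ^ γ ≤ Real.log X := by
      refine hlz1.trans (Real.log_le_log hz0 ?_)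
      have : z ≤ X := (Nat.le_self_pow (by norm_num) z).trans hX
      exact_mod_cast this
    have h2 : L ^ β' ≤ Real.log X ^ β := by
      rw [← hγβ, Real.rpow_mul hL0]
      exact Real.rpow_le_rpow hLγ h1 hβ.le
    have h3 : Real.exp (-(c * Real.log X ^ β)) ≤ Real.exp (-(c * L ^ β')) := by
      apply Real.exp_le_exp.2
      have := mul_le_mul_of_nonneg_left h2 hc.le
      linarith
    calc K * X * Real.exp (-(c * Real.log X ^ β)) ≤ K * X * Real.exp (-(c * L ^ β')) := by gcongr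
      _ = _ := by ring)
  rw [← hL] at hd
  have hWc : Real.exp (-(c * L ^ β')) ≤ W := by
    rw [hW]
    apply Real.exp_le_exp.2
    have := mul_le_mul_of_nonneg_right hc₃c hLβ
    linarith
  -- the element 0
  have h0 : (((range (N + 1)).filter (fun v => v ∈ f ⁻¹' E)).card : ℝ) ≤
      1 + (((Icc 1 N).filter (fun n => f n ∈ E)).card : ℝ) := by
    have h1 : (range (N + 1)).filter (fun v => v ∈ f ⁻¹' E) ⊆ insert 0 ((Icc 1 N).filter (fun n => f n ∈ E)) := by
      intro v hv
      rw [mem_filter, mem_range] at hv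
      rw [mem_insert, mem_filter, mem_Icc]
      rcases Nat.eq_zero_or_pos v with h | h
      · left; exact h
      · right
        exact ⟨⟨h, by omega⟩, hv.2⟩
    have h2 := (card_le_card h1).trans (card_insert_le _ _)
    have h3 : (((range (N + 1)).filter (fun v => v ∈ f ⁻¹' E)).card : ℝ) ≤
      (((Icc 1 N).filter (fun n => f n ∈ E)).card : ℝ) + 1 := by exact_mod_cast h2
    linarith
  have h1W : 1 ≤ 3 * N * W := by
    have h1 : Real.exp (-L) = 1 / N := by
      rw [hL, Real.exp_neg, Real.exp_log hN0, one_div]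
    have h2 : Real.exp (-L) ≤ Real.exp 1 * W := by
      rw [hW, ← Real.exp_add]
      apply Real.exp_le_exp.2
      have := mul_le_of_le_one_left hLβ hc₃1
      linarith
    rw [h1, div_le_iff₀ hN0] at h2
    have h3 : Real.exp 1 * W * N ≤ 3 * W * N := by gcongr
    linarith
  have hlzL : Real.log z ≤ 2 * A * (1 + L) := by
    have : A * (1 + L ^ γ) ≤ A * (2 * (1 + L)) := mul_le_mul_of_nonneg_left (by linarith) (by linarith)
    linarith
  have hP1 : 1 + L ≤ (1 + L) ^ (C' + 1) := le_self_pow₀ (by linarith) (by omega)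
  have hP2 : (1 + L) ^ C' ≤ (1 + L) ^ (C' + 1) := pow_le_pow_right₀ (by linarith) (by omega)
  have hP0 : 1 ≤ (1 + L) ^ (C' + 1) := one_le_pow₀ (by linarith)
  have hlz0 : 0 ≤ Real.log z := by linarith
  obtain ⟨P, hP⟩ : ∃ P, P = (1 + L) ^ (C' + 1) := ⟨_, rfl⟩
  rw [← hP] at hP1 hP2 hP0
  have hNW : 0 < N * W := by positivity
  have t1 : C * N * Real.log z * Real.exp (-(L / (16 * Real.log z))) ≤ 6 * C * A * (N * W * P) := by
    calc C * N * Real.log z * Real.exp (-(L / (16 * Real.log z)))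
        ≤ C * N * (2 * A * (1 + L)) * (3 * W) := by gcongr
      _ ≤ C * N * (2 * A * P) * (3 * W) := by gcongr
      _ = _ := by ring
  have t2 : K * Real.exp (-(c * L ^ β')) * C * N * (1 + L) ^ C' ≤ K * C * (N * W * P) := by
    calc K * Real.exp (-(c * L ^ β')) * C * N * (1 + L) ^ C' ≤ K * W * C * N * P := by gcongr
      _ = _ := by ring
  have t0 : N * W ≤ N * W * P := le_mul_of_one_le_right hNW.le hP0
  have t3 : 3 * N * W ≤ 3 * (N * W * P) := by linarith
  have t4 : 6 * N * W ≤ 6 * (N * W * P) := by linarith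
  have hfin : (((range (N + 1)).filter (fun v => v ∈ f ⁻¹' E)).card : ℝ) ≤
      (3 + 3 + 6 + 6 * C * A + K * C) * (N * W * P) := by
    calc (((range (N + 1)).filter (fun v => v ∈ f ⁻¹' E)).card : ℝ)
        ≤ 1 + (√N + C * N * Real.log z * Real.exp (-(L / (16 * Real.log z))) + 2 * N / z +
          K * Real.exp (-(c * L ^ β')) * C * N * (1 + L) ^ C') := by linarith
      _ ≤ 3 * (N * W * P) + (3 * (N * W * P) + 6 * C * A * (N * W * P) + 6 * (N * W * P) + K * C * (N * W * P)) := by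
          linarith
      _ = _ := by ring
  have hPW : P * W ≤ K₄ * Real.exp (-(c₃ / 2 * L ^ β')) := by
    have h1 := habs L hL0
    rw [← hP] at h1
    calc P * W ≤ K₄ * Real.exp (c₃ / 2 * L ^ β') * W := by gcongr
      _ = _ := by
        rw [hW, mul_assoc, ← Real.exp_add]
        congr 2
        ring
  have hfin2 : (3 + 3 + 6 + 6 * C * A + K * C) * (N * W * P) ≤
      (3 + 3 + 6 + 6 * C * A + K * C) * (N * (K₄ * Real.exp (-(c₃ / 2 * L ^ β')))) := by
    apply mul_le_mul_of_nonneg_left _ (by positivity)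
    calc (N : ℝ) * W * P = N * (P * W) := by ring
      _ ≤ _ := mul_le_mul_of_nonneg_left hPW hN0.le
  refine (hfin.trans hfin2).trans (le_of_eq ?_)
  ring

end Pool.Agent.N375.AV
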