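import Mathlib
import Pool.Agent.N375.AV.A

set_option autoImplicit false

/-! Examples of functions dominated by the largest prime factor. -/

namespace Pool.Agent.N375.AV

open Finset Classical

lemma below_not_dvd {m p : ℕ} (hp : p.Prime) (h : Below m p) : ¬ p ∣ m := by
  intro hd
  have := h p 1 hp le_rfl (by rwa [pow_one])
  rw [pow_one] at this
  exact lt_irrefl _ this

lemma add_one {f : ℕ → ℕ} (hadd : ∀ a b : ℕ, Nat.Coprime a b → f (a * b) = f a + f b) : f 1 = 0 := by
  have := hadd 1 1 (Nat.coprime_one_left 1)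
  rw [mul_one] at this
  omega

lemma add_bound {f : ℕ → ℕ} (hadd : ∀ a b : ℕ, Nat.Coprime a b → f (a * b) = f a + f b) {C : ℕ}
    (hC : ∀ q j : ℕ, q.Prime → 1 ≤ j → f (q ^ j) ≤ C * q ^ j) (p : ℕ) (m : ℕ) (hm : 1 ≤ m) (hb : Below m p) :
    (f m : ℝ) ≤ 2 * C * p * Real.log m := by
  induction m using Nat.recOnPosPrimePosCoprime with
  | prime_pow q n hq hn =>
    have h1 := hb q n hq hn dvd_rfl
    have h2 : (f (q ^ n) : ℝ) ≤ C * ((q ^ n : ℕ) : ℝ) := by exact_mod_cast hC q n hq hn
    have h3 : ((q ^ n : ℕ) : ℝ) ≤ p := by exact_mod_cast h1.le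
    have h4 : Real.log 2 ≤ Real.log ((q ^ n : ℕ) : ℝ) := by
      apply Real.log_le_log (by norm_num)
      have : 2 ≤ q ^ n := hq.two_le.trans (Nat.le_self_pow (by omega) q)
      exact_mod_cast this
    have h5 := Real.log_two_gt_d9
    have hC0 : (0 : ℝ) ≤ C := Nat.cast_nonneg _
    have hp0 : (0 : ℝ) ≤ p := Nat.cast_nonneg _
    calc (f (q ^ n) : ℝ) ≤ C * ((q ^ n : ℕ) : ℝ) := h2
      _ ≤ C * p := mul_le_mul_of_nonneg_left h3 hC0
      _ = 2 * C * p * (1 / 2) := by ring
      _ ≤ 2 * C * p * Real.log ((q ^ n : ℕ) : ℝ) := by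
          apply mul_le_mul_of_nonneg_left _ (by positivity)
          linarith
  | zero => omega
  | one =>
    rw [add_one hadd]
    simp
  | coprime a b ha hb' hab iha ihb =>
    have h1 := iha (by omega) (fun q j hq hj hd => hb q j hq hj (hd.mul_right b))
    have h2 := ihb (by omega) (fun q j hq hj hd => hb q j hq hj (hd.mul_left a))
    rw [hadd a b hab]
    have ha0 : (a : ℝ) ≠ 0 := by exact_mod_cast (by omega : a ≠ 0)
    have hb0 : (b : ℝ) ≠ 0 := by exact_mod_cast (by omega : b ≠ 0)
    push_cast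
    rw [Real.log_mul ha0 hb0]
    linarith

/-- additive functions with `f (q^j) ≤ C q^j` at the prime powers, injective at the large primes -/
theorem pd_additive {f : ℕ → ℕ} (hadd : ∀ a b : ℕ, Nat.Coprime a b → f (a * b) = f a + f b)
    (hgrowth : ∃ C : ℕ, ∀ q j : ℕ, q.Prime → 1 ≤ j → f (q ^ j) ≤ C * q ^ j)
    (hinj : ∃ P : ℕ, ∀ p q : ℕ, p.Prime → q.Prime → P ≤ p → P ≤ q → f p = f q → p = q) : PD f := by
  obtain ⟨C, hC⟩ := hgrowth
  obtain ⟨P, hP⟩ := hinj
  refine ⟨2 * C + 1 + P, fun m hm => ⟨fun p hp hCp hb => ?_, fun p q hp hq hp1 hq1 hb1 hb2 h => ?_⟩⟩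
  · have hcop : Nat.Coprime m p := ((hp.coprime_iff_not_dvd).2 (below_not_dvd hp hb)).symm
    rw [hadd m p hcop]
    have h1 := add_bound hadd hC p m hm hb
    have h2 : (f p : ℝ) ≤ C * p := by
      have := hC p 1 hp le_rfl
      rw [pow_one] at this
      exact_mod_cast this
    have hm0 : (0 : ℝ) < m := by exact_mod_cast hm
    have hp0 : (0 : ℝ) < p := by exact_mod_cast hp.pos
    have hm1 : (1 : ℝ) ≤ m := by exact_mod_cast hm
    have hp1 : (1 : ℝ) ≤ p := by exact_mod_cast hp.one_le
    have hlm : 0 ≤ Real.log m := Real.log_nonneg hm1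
    have hlp : 0 ≤ Real.log p := Real.log_nonneg hp1
    have hl : Real.log ((m : ℝ) * p) = Real.log m + Real.log p := Real.log_mul hm0.ne' hp0.ne'
    have h3 : 1 + Real.log ((m : ℝ) * p) ≤ (1 + Real.log ((m : ℝ) * p)) ^ (2 * C + 1 + P) :=
      le_self_pow₀ (by rw [hl]; linarith) (by omega)
    push_cast
    have hC0 : (0 : ℝ) ≤ C := Nat.cast_nonneg _
    have hP0 : (0 : ℝ) ≤ P := Nat.cast_nonneg _
    calc (f m : ℝ) + f p ≤ 2 * C * p * Real.log m + C * p := by linarith
      _ ≤ (2 * C + 1 + P) * p * (1 + Real.log ((m : ℝ) * p)) := by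
          rw [hl]
          have e1 : 0 ≤ (C : ℝ) * p := by positivity
          have e2 : 0 ≤ (C : ℝ) * p * Real.log p := by positivity
          have e3 : 0 ≤ (1 + P : ℝ) * p * (1 + (Real.log m + Real.log p)) := by positivity
          nlinarith
      _ ≤ _ := mul_le_mul_of_nonneg_left h3 (by positivity)
  · have hcop1 : Nat.Coprime m p := ((hp.coprime_iff_not_dvd).2 (below_not_dvd hp hb1)).symm
    have hcop2 : Nat.Coprime m q := ((hq.coprime_iff_not_dvd).2 (below_not_dvd hq hb2)).symm
    rw [hadd m p hcop1, hadd m q hcop2] at h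
    exact hP p q hp hq (by omega) (by omega) (by omega)

/-- the sum of the prime factors, with multiplicity -/
theorem pd_sopfr : PD (fun n => n.primeFactorsList.sum) := by
  apply pd_additive
  · intro a b hab
    exact ((Nat.perm_primeFactorsList_mul_of_coprime hab).sum_eq).trans List.sum_append
  · refine ⟨1, fun q j hq hj => ?_⟩
    simp only [hq.primeFactorsList_pow, List.sum_replicate, smul_eq_mul, one_mul]
    obtain ⟨i, rfl⟩ : ∃ i, j = i + 1 := ⟨j - 1, by omega⟩
    rw [pow_succ]
    apply Nat.mul_le_mul_right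
    have h1 : i + 1 ≤ 2 ^ i := Nat.lt_two_pow_self
    exact h1.trans (Nat.pow_le_pow_left hq.two_le i)
  · refine ⟨0, fun p q hp hq _ _ h => ?_⟩
    simpa [Nat.primeFactorsList_prime hp, Nat.primeFactorsList_prime hq] using h

/-- the largest prime factor -/
theorem pd_largest : PD (fun n => n.primeFactors.sup id) := by
  have key : ∀ m p : ℕ, 1 ≤ m → p.Prime → Below m p → (m * p).primeFactors.sup id = p := by
    intro m p hm hp hb
    apply le_antisymm
    · apply Finset.sup_le
      intro q hq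
      rw [Nat.mem_primeFactors] at hq
      rcases (hq.1.dvd_mul).1 hq.2.1 with h | h
      · have := hb q 1 hq.1 le_rfl (by rwa [pow_one])
        rw [pow_one] at this
        exact this.le
      · exact ((Nat.prime_dvd_prime_iff_eq hq.1 hp).1 h).le
    · have : p ∈ (m * p).primeFactors := by
        rw [Nat.mem_primeFactors]
        exact ⟨hp, dvd_mul_left p m, Nat.mul_ne_zero (by omega) hp.ne_zero⟩
      exact Finset.le_sup (f := id) this
  refine ⟨1, fun m hm => ⟨fun p hp _ hb => ?_, fun p q hp hq _ _ hb1 hb2 h => ?_⟩⟩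
  · simp only [key m p hm hp hb]
    have hmp : (1 : ℝ) ≤ (m : ℝ) * p := by
      have : 1 ≤ m * p := Nat.mul_pos (by omega) hp.pos
      exact_mod_cast this
    have := Real.log_nonneg hmp
    have hp0 : (0 : ℝ) ≤ p := Nat.cast_nonneg _
    rw [Nat.cast_one, one_mul, pow_one]
    nlinarith
  · simp only [key m p hm hp hb1, key m q hm hq hb2] at h
    exact h

/-- Kempner's function: the least `k` such that `n` divides `k!` -/
theorem pd_kempner : PD (fun n => sInf {k : ℕ | n ∣ k.factorial}) := by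
  have key : ∀ m p : ℕ, 1 ≤ m → p.Prime → Below m p → sInf {k : ℕ | m * p ∣ k.factorial} = p := by
    intro m p hm hp hb
    have h1 : m ∣ (p - 1).factorial := by
      rw [Nat.dvd_iff_prime_pow_dvd_dvd]
      intro q j hq hd
      rcases Nat.eq_zero_or_pos j with h | h
      · rw [h, pow_zero]; exact one_dvd _
      · have := hb q j hq h hd
        exact Nat.dvd_factorial (pow_pos hq.pos _) (by omega)
    have h2 : m * p ∣ p.factorial := by
      rw [← Nat.mul_factorial_pred hp.ne_zero, mul_comm]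
      exact mul_dvd_mul_left p h1
    apply le_antisymm
    · exact Nat.sInf_le h2
    · apply le_csInf ⟨p, h2⟩
      intro k hk
      exact (hp.dvd_factorial).1 ((dvd_mul_left p m).trans hk)
  refine ⟨1, fun m hm => ⟨fun p hp _ hb => ?_, fun p q hp hq _ _ hb1 hb2 h => ?_⟩⟩
  · simp only [key m p hm hp hb]
    have hmp : (1 : ℝ) ≤ (m : ℝ) * p := by
      have : 1 ≤ m * p := Nat.mul_pos (by omega) hp.pos
      exact_mod_cast this
    have := Real.log_nonneg hmp
    have hp0 : (0 : ℝ) ≤ p := Nat.cast_nonneg _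
    rw [Nat.cast_one, one_mul, pow_one]
    nlinarith
  · simp only [key m p hm hp hb1, key m q hm hq hb2] at h
    exact h

end Pool.Agent.N375.AV
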