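import Mathlib
import Pool.Agent.N375.AV.C
import Pool.Agent.N375.AV.Ex
import Pool.Agent.N375.MV.Unif

set_option autoImplicit false

/-! Compositions of functions dominated by the largest prime factor keep away from sets with a power saving: forms for
applications. -/

namespace Pool.Agent.N375.AV

open Finset Classical
open Pool.Agent.N733.TG (Expanding NearG)

/-- the composition `f_1 ∘ f_2 ∘ ⋯ ∘ f_k` of a list of functions -/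
def comp (fs : List (ℕ → ℕ)) : ℕ → ℕ := fs.foldr (fun f g => f ∘ g) id

theorem comp_thin (fs : List (ℕ → ℕ)) (hfs : ∀ f ∈ fs, PD f) : ∀ {β c K : ℝ}, 0 < β → β ≤ 1 → 0 < c → 0 ≤ K →
    ∃ c' K' : ℝ, 0 < c' ∧ 0 ≤ K' ∧ ∀ E : Set ℕ, Thin β c K E → Thin (β / (1 + fs.length * β)) c' K' (comp fs ⁻¹' E) := by
  induction fs with
  | nil =>
    intro β c K hβ hβ1 hc hK
    refine ⟨c, K, hc, hK, fun E hE => ?_⟩
    simpa [comp] using hE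
  | cons f fs ih =>
    intro β c K hβ hβ1 hc hK
    obtain ⟨c₁, K₁, hc₁, hK₁, h1⟩ := preimage (hfs f List.mem_cons_self) hβ hβ1 hc hK
    have hb : β / (1 + β) ≤ 1 := by
      rw [div_le_one (by linarith)]
      linarith
    obtain ⟨c₂, K₂, hc₂, hK₂, h2⟩ := ih (fun g hg => hfs g (List.mem_cons_of_mem _ hg)) (β := β / (1 + β))
      (by positivity) hb hc₁ hK₁
    refine ⟨c₂, K₂, hc₂, hK₂, fun E hE => ?_⟩
    have h3 := h2 (f ⁻¹' E) (h1 E hE)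
    have h4 : β / (1 + β) / (1 + fs.length * (β / (1 + β))) = β / (1 + ((f :: fs).length : ℕ) * β) := by
      rw [List.length_cons]
      push_cast
      have : (0 : ℝ) ≤ fs.length := Nat.cast_nonneg _
      have h5 : 1 + β ≠ 0 := by linarith
      have h6 : 0 < 1 + ((fs.length : ℝ) + 1) * β := by positivity
      have h7 : 1 + (fs.length : ℝ) * (β / (1 + β)) = (1 + ((fs.length : ℝ) + 1) * β) / (1 + β) := by
        field_simp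
        ring
      rw [h7, div_div_div_cancel_right₀ h5]
    rw [h4] at h3
    exact h3

/-- sets with a power saving are thin -/
lemma thin_of_power {θ K : ℝ} (hθ0 : 0 ≤ θ) (E : Set ℕ)
    (hE : ∀ X : ℕ, 1 ≤ X → (((Icc 1 X).filter (fun v => v ∈ E)).card : ℝ) ≤ K * (X : ℝ) ^ θ) :
    Thin 1 (1 - θ) (|K| + 1) E := by
  intro X hX
  have hX1 : (1 : ℝ) ≤ X := by exact_mod_cast hX
  have hX0 : (0 : ℝ) < X := by linarith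
  have h1 : (range (X + 1)).filter (fun v => v ∈ E) ⊆ insert 0 ((Icc 1 X).filter (fun v => v ∈ E)) := by
    intro v hv
    rw [mem_filter, mem_range] at hv
    rw [mem_insert, mem_filter, mem_Icc]
    rcases Nat.eq_zero_or_pos v with h | h
    · left; exact h
    · right
      exact ⟨⟨h, by omega⟩, hv.2⟩
  have h2 := (card_le_card h1).trans (card_insert_le _ _)
  have h3 : (((range (X + 1)).filter (fun v => v ∈ E)).card : ℝ) ≤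
    (((Icc 1 X).filter (fun v => v ∈ E)).card : ℝ) + 1 := by exact_mod_cast h2
  have h4 : (1 : ℝ) ≤ (X : ℝ) ^ θ := Real.one_le_rpow hX1 hθ0
  have h5 := hE X hX
  have h6 : K * (X : ℝ) ^ θ ≤ |K| * (X : ℝ) ^ θ := mul_le_mul_of_nonneg_right (le_abs_self K) (by linarith)
  have h7 : (X : ℝ) * Real.exp (-((1 - θ) * Real.log X ^ (1 : ℝ))) = (X : ℝ) ^ θ := by
    rw [Real.rpow_one]
    have h8 : (X : ℝ) = Real.exp (Real.log X) := (Real.exp_log hX0).symm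
    rw [Real.rpow_def_of_pos hX0]
    nth_rewrite 1 [h8]
    rw [← Real.exp_add]
    congr 1
    ring
  rw [mul_assoc, h7]
  linarith

/-- **Main tool, uniform form.** -/
theorem windows_unif {T : Type*} (h : T → ℝ) (fs : List (ℕ → ℕ)) (hfs : ∀ f ∈ fs, PD f) {G : ℕ → ℝ} {d : ℝ}
    (hG : Expanding G d) {s κ : ℝ} (hs : 0 ≤ s) (hκ : 0 ≤ κ) (h1 : d * s + κ < 1) (C : ℝ) :
    ∃ c K : ℝ, 0 < c ∧ ∀ S : Set T, (∀ X : ℝ, 1 ≤ X →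
      {t | t ∈ S ∧ h t ≤ X}.Finite ∧ ({t | t ∈ S ∧ h t ≤ X}.ncard : ℝ) ≤ C * X ^ s) → ∀ N : ℕ, 1 ≤ N →
      ({m : ℕ | 1 ≤ m ∧ m ≤ N ∧ ∃ t ∈ S, |h t - G (comp fs m)| ≤ (comp fs m : ℝ) ^ κ}.ncard : ℝ) ≤
        K * N * Real.exp (-(c * Real.log N ^ ((1 : ℝ) / (fs.length + 1)))) := by
  have hd := hG.one_le
  have hds : 0 ≤ d * s := by positivity
  obtain ⟨K, hK⟩ := Pool.Agent.N375.MV.nearG_count_unif h hG (s := s) (κ := κ) hs hκ (by linarith) C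
  obtain ⟨c, K', hc, hK', hcomp⟩ := comp_thin fs hfs (β := 1) (c := 1 - (d * s + κ)) (K := |K| + 1) one_pos le_rfl
    (by linarith) (by positivity)
  refine ⟨c, K', hc, fun S hS N hN => ?_⟩
  have h2 := hcomp (NearG S h G κ) (thin_of_power (by positivity) _ (hK S hS)) N hN
  rw [mul_one, add_comm (1 : ℝ)] at h2
  refine le_trans ?_ h2
  have h3 : {m : ℕ | 1 ≤ m ∧ m ≤ N ∧ ∃ t ∈ S, |h t - G (comp fs m)| ≤ (comp fs m : ℝ) ^ κ} ⊆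
      (((range (N + 1)).filter (fun v => v ∈ comp fs ⁻¹' NearG S h G κ) : Finset ℕ) : Set ℕ) := by
    rintro m ⟨hm1, hmN, hm⟩
    rw [mem_coe, mem_filter, mem_range]
    exact ⟨by omega, hm⟩
  have h4 := Set.ncard_le_ncard h3 (finite_toSet _)
  rw [Set.ncard_coe_finset] at h4
  exact_mod_cast h4

/-- **Main tool.** If `S` has `O_ε (X ^ (s + ε))` elements of height at most `X`, and `G` is expanding of order `d`,
`d s + κ < 1`, then for all `m ≤ N` but `K N exp (- c (log N)^(1/(k+1)))` no element of `S` has a height within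
`F(m)^κ` of `G (F m)`, `F = f_1 ∘ ⋯ ∘ f_k`. -/
theorem windows {T : Type*} (S : Set T) (h : T → ℝ) (fs : List (ℕ → ℕ)) (hfs : ∀ f ∈ fs, PD f) {G : ℕ → ℝ} {d : ℝ}
    (hG : Expanding G d) {s κ : ℝ} (hs : 0 ≤ s) (hκ : 0 ≤ κ) (h1 : d * s + κ < 1)
    (hS : ∀ ε : ℝ, 0 < ε → ∃ C : ℝ, ∀ X : ℝ, 1 ≤ X →
      {t | t ∈ S ∧ h t ≤ X}.Finite ∧ ({t | t ∈ S ∧ h t ≤ X}.ncard : ℝ) ≤ C * X ^ (s + ε)) :
    ∃ c K : ℝ, 0 < c ∧ ∀ N : ℕ, 1 ≤ N →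
      ({m : ℕ | 1 ≤ m ∧ m ≤ N ∧ ∃ t ∈ S, |h t - G (comp fs m)| ≤ (comp fs m : ℝ) ^ κ}.ncard : ℝ) ≤
        K * N * Real.exp (-(c * Real.log N ^ ((1 : ℝ) / (fs.length + 1)))) := by
  have hd := hG.one_le
  obtain ⟨ε, hε⟩ : ∃ ε, ε = (1 - d * s - κ) / (2 * d) := ⟨_, rfl⟩
  have hε0 : 0 < ε := by
    rw [hε]
    apply div_pos (by linarith) (by linarith)
  have hεd : d * ε = (1 - d * s - κ) / 2 := by
    rw [hε]
    field_simp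
  obtain ⟨C, hC⟩ := hS ε hε0
  obtain ⟨c, K, hc, hK⟩ := windows_unif h fs hfs hG (s := s + ε) (κ := κ) (by linarith) hκ
    (by rw [mul_add, hεd]; linarith) C
  exact ⟨c, K, hc, fun N hN => hK S hC N hN⟩

/-- the case of a set of natural numbers -/
theorem win_nat (P : Set ℕ) (fs : List (ℕ → ℕ)) (hfs : ∀ f ∈ fs, PD f) {G : ℕ → ℝ} {d : ℝ}
    (hG : Expanding G d) {s κ : ℝ} (hs : 0 ≤ s) (hκ : 0 ≤ κ) (h1 : d * s + κ < 1)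
    (hP : ∀ ε : ℝ, 0 < ε → ∃ C : ℝ, ∀ X : ℕ, 1 ≤ X →
      (((Ioc 0 X).filter (fun t => t ∈ P)).card : ℝ) ≤ C * (X : ℝ) ^ (s + ε)) :
    ∃ c K : ℝ, 0 < c ∧ ∀ N : ℕ, 1 ≤ N →
      ({m : ℕ | 1 ≤ m ∧ m ≤ N ∧ ∃ n : ℕ, (n = 0 ∨ n ∈ P) ∧ |(n : ℝ) - G (comp fs m)| ≤ (comp fs m : ℝ) ^ κ}.ncard : ℝ) ≤
        K * N * Real.exp (-(c * Real.log N ^ ((1 : ℝ) / (fs.length + 1)))) := by
  obtain ⟨c, K, hc, hK⟩ := windows {t : ℕ | t = 0 ∨ t ∈ P} (fun t : ℕ => (t : ℝ)) fs hfs hG hs hκ h1 (by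
    intro ε hε
    obtain ⟨C, hC⟩ := hP ε hε
    refine ⟨|C| + 1, fun X hX => ?_⟩
    have hX1 : 1 ≤ ⌊X⌋₊ := Nat.le_floor (by exact_mod_cast hX)
    have hsub : {t : ℕ | t ∈ {t : ℕ | t = 0 ∨ t ∈ P} ∧ (t : ℝ) ≤ X} ⊆
        (((Ioc 0 ⌊X⌋₊).filter (fun t => t ∈ P) ∪ {0} : Finset ℕ) : Set ℕ) := by
      rintro t ⟨ht, htX⟩
      rw [mem_coe, mem_union, mem_filter, mem_Ioc, mem_singleton]
      rcases Nat.eq_zero_or_pos t with h0 | h0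
      · right; exact h0
      · left
        refine ⟨⟨h0, Nat.le_floor htX⟩, ?_⟩
        rcases ht with h | h
        · omega
        · exact h
    refine ⟨(finite_toSet _).subset hsub, ?_⟩
    have h2 := Set.ncard_le_ncard hsub (finite_toSet _)
    rw [Set.ncard_coe_finset] at h2
    have h3 : ((Ioc 0 ⌊X⌋₊).filter (fun t => t ∈ P) ∪ {0} : Finset ℕ).card ≤
        ((Ioc 0 ⌊X⌋₊).filter (fun t => t ∈ P)).card + 1 := (card_union_le _ _).trans (by simp)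
    have h4 : (({t : ℕ | t ∈ {t : ℕ | t = 0 ∨ t ∈ P} ∧ (t : ℝ) ≤ X}.ncard : ℕ) : ℝ) ≤
        (((Ioc 0 ⌊X⌋₊).filter (fun t => t ∈ P)).card : ℝ) + 1 := by exact_mod_cast h2.trans h3
    have h5 : (1 : ℝ) ≤ X ^ (s + ε) := Real.one_le_rpow hX (by linarith)
    have h6 : ((⌊X⌋₊ : ℕ) : ℝ) ^ (s + ε) ≤ X ^ (s + ε) :=
      Real.rpow_le_rpow (Nat.cast_nonneg _) (Nat.floor_le (by linarith)) (by linarith)
    calc _ ≤ (((Ioc 0 ⌊X⌋₊).filter (fun t => t ∈ P)).card : ℝ) + 1 := h4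
      _ ≤ C * ((⌊X⌋₊ : ℕ) : ℝ) ^ (s + ε) + 1 := by linarith [hC _ hX1]
      _ ≤ |C| * X ^ (s + ε) + 1 * X ^ (s + ε) := by
        have h7 : C * ((⌊X⌋₊ : ℕ) : ℝ) ^ (s + ε) ≤ |C| * X ^ (s + ε) :=
          (mul_le_mul_of_nonneg_right (le_abs_self _) (by positivity)).trans
            (mul_le_mul_of_nonneg_left h6 (abs_nonneg _))
        linarith
      _ = (|C| + 1) * X ^ (s + ε) := by ring)
  exact ⟨c, K, hc, fun N hN => hK N hN⟩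

/-- the same for a property: for almost all `m` every `t` with `Adm t` and a height near `G (F m)` is good -/
theorem good {T : Type*} (Adm Good : T → Prop) (h : T → ℝ) (fs : List (ℕ → ℕ)) (hfs : ∀ f ∈ fs, PD f) {G : ℕ → ℝ} {d : ℝ}
    (hG : Expanding G d) {s κ : ℝ} (hs : 0 ≤ s) (hκ : 0 ≤ κ) (h1 : d * s + κ < 1)
    (hS : ∀ ε : ℝ, 0 < ε → ∃ C : ℝ, ∀ X : ℝ, 1 ≤ X →
      {t | (Adm t ∧ ¬ Good t) ∧ h t ≤ X}.Finite ∧ ({t | (Adm t ∧ ¬ Good t) ∧ h t ≤ X}.ncard : ℝ) ≤ C * X ^ (s + ε)) :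
    ∃ c K : ℝ, 0 < c ∧ ∀ N : ℕ, 1 ≤ N →
      ({m : ℕ | 1 ≤ m ∧ m ≤ N ∧ ¬ ∀ t, Adm t → |h t - G (comp fs m)| ≤ (comp fs m : ℝ) ^ κ → Good t}.ncard : ℝ) ≤
        K * N * Real.exp (-(c * Real.log N ^ ((1 : ℝ) / (fs.length + 1)))) := by
  obtain ⟨c, K, hc, hK⟩ := windows {t | Adm t ∧ ¬ Good t} h fs hfs hG hs hκ h1 hS
  refine ⟨c, K, hc, fun N hN => le_trans ?_ (hK N hN)⟩
  have hfin : {m : ℕ | 1 ≤ m ∧ m ≤ N ∧ ∃ t ∈ {t | Adm t ∧ ¬ Good t},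
      |h t - G (comp fs m)| ≤ (comp fs m : ℝ) ^ κ}.Finite := by
    apply (Set.finite_Icc 1 N).subset
    intro m hm
    exact ⟨hm.1, hm.2.1⟩
  have h2 : {m : ℕ | 1 ≤ m ∧ m ≤ N ∧ ¬ ∀ t, Adm t → |h t - G (comp fs m)| ≤ (comp fs m : ℝ) ^ κ → Good t} ⊆
      {m : ℕ | 1 ≤ m ∧ m ≤ N ∧ ∃ t ∈ {t | Adm t ∧ ¬ Good t}, |h t - G (comp fs m)| ≤ (comp fs m : ℝ) ^ κ} := by
    rintro m ⟨h2, h3, h4⟩
    push Not at h4
    obtain ⟨n, hn, h5, h6⟩ := h4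
    exact ⟨h2, h3, n, ⟨hn, h6⟩, h5⟩
  exact_mod_cast Set.ncard_le_ncard h2 hfin

/-- the same for natural numbers -/
theorem good_nat (Adm Good : ℕ → Prop) (fs : List (ℕ → ℕ)) (hfs : ∀ f ∈ fs, PD f) {G : ℕ → ℝ} {d : ℝ}
    (hG : Expanding G d) {s κ : ℝ} (hs : 0 ≤ s) (hκ : 0 ≤ κ) (h1 : d * s + κ < 1)
    (hP : ∀ ε : ℝ, 0 < ε → ∃ C : ℝ, ∀ X : ℕ, 1 ≤ X →
      ({t : ℕ | 1 ≤ t ∧ t ≤ X ∧ Adm t ∧ ¬ Good t}.ncard : ℝ) ≤ C * (X : ℝ) ^ (s + ε)) :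
    ∃ c K : ℝ, 0 < c ∧ ∀ N : ℕ, 1 ≤ N →
      ({m : ℕ | 1 ≤ m ∧ m ≤ N ∧ ¬ ∀ n : ℕ, 1 ≤ n → Adm n → |(n : ℝ) - G (comp fs m)| ≤ (comp fs m : ℝ) ^ κ →
        Good n}.ncard : ℝ) ≤ K * N * Real.exp (-(c * Real.log N ^ ((1 : ℝ) / (fs.length + 1)))) := by
  obtain ⟨c, K, hc, hK⟩ := win_nat {t | Adm t ∧ ¬ Good t} fs hfs hG hs hκ h1 (fun ε hε => by
    obtain ⟨C, hC⟩ := hP ε hε
    refine ⟨C, fun X hX => le_trans (le_of_eq ?_) (hC X hX)⟩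
    congr 1
    rw [← Set.ncard_coe_finset]
    congr 1
    ext t
    simp only [coe_filter, mem_Ioc, Set.mem_ofPred_eq]
    constructor
    · rintro ⟨⟨a1, a2⟩, a3⟩
      exact ⟨a1, a2, a3⟩
    · rintro ⟨a1, a2, a3⟩
      exact ⟨⟨a1, a2⟩, a3⟩)
  refine ⟨c, K, hc, fun N hN => le_trans ?_ (hK N hN)⟩
  have hfin : {m : ℕ | 1 ≤ m ∧ m ≤ N ∧ ∃ n : ℕ, (n = 0 ∨ n ∈ {t | Adm t ∧ ¬ Good t}) ∧
      |(n : ℝ) - G (comp fs m)| ≤ (comp fs m : ℝ) ^ κ}.Finite := by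
    apply (Set.finite_Icc 1 N).subset
    intro m hm
    exact ⟨hm.1, hm.2.1⟩
  have h2 : {m : ℕ | 1 ≤ m ∧ m ≤ N ∧ ¬ ∀ n : ℕ, 1 ≤ n → Adm n → |(n : ℝ) - G (comp fs m)| ≤ (comp fs m : ℝ) ^ κ →
        Good n} ⊆
      {m : ℕ | 1 ≤ m ∧ m ≤ N ∧ ∃ n : ℕ, (n = 0 ∨ n ∈ {t | Adm t ∧ ¬ Good t}) ∧
      |(n : ℝ) - G (comp fs m)| ≤ (comp fs m : ℝ) ^ κ} := by
    rintro m ⟨h2, h3, h4⟩
    push Not at h4
    obtain ⟨n, hn1, hn, h5, h6⟩ := h4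
    exact ⟨h2, h3, n, Or.inr ⟨hn, h6⟩, h5⟩
  exact_mod_cast Set.ncard_le_ncard h2 hfin

end Pool.Agent.N375.AV
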