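import Mathlib
import Pool.Agent.N375.AV.D

set_option autoImplicit false

/-! Further forms for applications: integers of both signs, uniformity in a family, plain sets of natural numbers. -/

namespace Pool.Agent.N375.AV

open Finset Classical
open Pool.Agent.N733.TG (Expanding NearG)

/-- integers of both signs -/
theorem good_int (Good : ℤ → Prop) (fs : List (ℕ → ℕ)) (hfs : ∀ f ∈ fs, PD f) {G : ℕ → ℝ} {d : ℝ}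
    (hG : Expanding G d) {s κ : ℝ} (hs : 0 ≤ s) (hκ : 0 ≤ κ) (h1 : d * s + κ < 1)
    (hP : ∀ ε : ℝ, 0 < ε → ∃ C : ℝ, ∀ X : ℕ, 1 ≤ X →
      ({b : ℤ | b ≠ 0 ∧ |b| ≤ (X : ℤ) ∧ ¬ Good b}.ncard : ℝ) ≤ C * (X : ℝ) ^ (s + ε)) :
    ∃ c K : ℝ, 0 < c ∧ ∀ N : ℕ, 1 ≤ N →
      ({m : ℕ | 1 ≤ m ∧ m ≤ N ∧ ¬ ∀ n : ℤ, n ≠ 0 → |(|n| : ℝ) - G (comp fs m)| ≤ (comp fs m : ℝ) ^ κ →
        Good n}.ncard : ℝ) ≤ K * N * Real.exp (-(c * Real.log N ^ ((1 : ℝ) / (fs.length + 1)))) := by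
  obtain ⟨c, K, hc, hK⟩ := good_nat (fun _ => True) (fun n => ∀ b : ℤ, b.natAbs = n → Good b) fs hfs hG hs hκ h1
    (fun ε hε => by
      obtain ⟨C, hC⟩ := hP ε hε
      refine ⟨C, fun X hX => le_trans ?_ (hC X hX)⟩
      have hfin : {b : ℤ | b ≠ 0 ∧ |b| ≤ (X : ℤ) ∧ ¬ Good b}.Finite := by
        apply (Set.finite_Icc (-(X : ℤ)) X).subset
        intro b hb
        exact abs_le.1 hb.2.1
      have h2 : {t : ℕ | 1 ≤ t ∧ t ≤ X ∧ True ∧ ¬ ∀ b : ℤ, b.natAbs = t → Good b} ⊆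
          Int.natAbs '' {b : ℤ | b ≠ 0 ∧ |b| ≤ (X : ℤ) ∧ ¬ Good b} := by
        rintro n ⟨hn1, hnX, -, hn⟩
        push Not at hn
        obtain ⟨b, hb, hb2⟩ := hn
        refine ⟨b, ⟨by omega, ?_, hb2⟩, hb⟩
        rw [Int.abs_eq_natAbs, hb]
        exact_mod_cast hnX
      have h3 := (Set.ncard_le_ncard h2 (hfin.image _)).trans (Set.ncard_image_le hfin)
      exact_mod_cast h3)
  refine ⟨c, K, hc, fun N hN => le_trans ?_ (hK N hN)⟩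
  have hfin : {m : ℕ | 1 ≤ m ∧ m ≤ N ∧ ¬ ∀ n : ℕ, 1 ≤ n → True → |(n : ℝ) - G (comp fs m)| ≤ (comp fs m : ℝ) ^ κ →
        ∀ b : ℤ, b.natAbs = n → Good b}.Finite := by
    apply (Set.finite_Icc 1 N).subset
    intro m hm
    exact ⟨hm.1, hm.2.1⟩
  have h4 : {m : ℕ | 1 ≤ m ∧ m ≤ N ∧ ¬ ∀ n : ℤ, n ≠ 0 → |(|n| : ℝ) - G (comp fs m)| ≤ (comp fs m : ℝ) ^ κ →
        Good n} ⊆
      {m : ℕ | 1 ≤ m ∧ m ≤ N ∧ ¬ ∀ n : ℕ, 1 ≤ n → True → |(n : ℝ) - G (comp fs m)| ≤ (comp fs m : ℝ) ^ κ →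
        ∀ b : ℤ, b.natAbs = n → Good b} := by
    rintro m ⟨hm1, hm2, hm3⟩
    refine ⟨hm1, hm2, fun h => hm3 fun n hn hn2 => ?_⟩
    refine h n.natAbs (by omega) trivial ?_ n rfl
    have : ((n.natAbs : ℕ) : ℝ) = |(n : ℝ)| := by
      rw [Nat.cast_natAbs, Int.cast_abs]
    rw [this]
    exact hn2
  exact_mod_cast Set.ncard_le_ncard h4 hfin

/-- uniform form with a property: one `c` and one `K` for all pairs `(Adm, Good)` with the same bound for the exceptions -/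
theorem good_unif {T : Type*} (h : T → ℝ) (fs : List (ℕ → ℕ)) (hfs : ∀ f ∈ fs, PD f) {G : ℕ → ℝ} {d : ℝ}
    (hG : Expanding G d) {s κ : ℝ} (hs : 0 ≤ s) (hκ : 0 ≤ κ) (h1 : d * s + κ < 1) (C : ℝ) :
    ∃ c K : ℝ, 0 < c ∧ ∀ Adm Good : T → Prop, (∀ X : ℝ, 1 ≤ X →
      {t | (Adm t ∧ ¬ Good t) ∧ h t ≤ X}.Finite ∧ ({t | (Adm t ∧ ¬ Good t) ∧ h t ≤ X}.ncard : ℝ) ≤ C * X ^ s) →
      ∀ N : ℕ, 1 ≤ N →
      ({m : ℕ | 1 ≤ m ∧ m ≤ N ∧ ¬ ∀ t, Adm t → |h t - G (comp fs m)| ≤ (comp fs m : ℝ) ^ κ → Good t}.ncard : ℝ) ≤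
        K * N * Real.exp (-(c * Real.log N ^ ((1 : ℝ) / (fs.length + 1)))) := by
  obtain ⟨c, K, hc, hK⟩ := windows_unif h fs hfs hG hs hκ h1 C
  refine ⟨c, K, hc, fun Adm Good hS N hN => le_trans ?_ (hK {t | Adm t ∧ ¬ Good t} hS N hN)⟩
  have hfin : {m : ℕ | 1 ≤ m ∧ m ≤ N ∧ ∃ t ∈ {t | Adm t ∧ ¬ Good t},
      |h t - G (comp fs m)| ≤ (comp fs m : ℝ) ^ κ}.Finite := by
    apply (Set.finite_Icc 1 N).subset
    intro m hm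
    exact ⟨hm.1, hm.2.1⟩
  have h2 : {m : ℕ | 1 ≤ m ∧ m ≤ N ∧ ¬ ∀ t, Adm t → |h t - G (comp fs m)| ≤ (comp fs m : ℝ) ^ κ → Good t} ⊆
      {m : ℕ | 1 ≤ m ∧ m ≤ N ∧ ∃ t ∈ {t | Adm t ∧ ¬ Good t}, |h t - G (comp fs m)| ≤ (comp fs m : ℝ) ^ κ} := by
    rintro m ⟨h2, h3, h4⟩
    push Not at h4
    obtain ⟨n, hn, h5, h6⟩ := h4
    exact ⟨h2, h3, n, ⟨hn, h6⟩, h5⟩
  exact_mod_cast Set.ncard_le_ncard h2 hfin

/-- plain form: `F m` avoids a set with a power saving (uniformly) -/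
theorem avoid_unif (fs : List (ℕ → ℕ)) (hfs : ∀ f ∈ fs, PD f) {θ : ℝ} (hθ0 : 0 ≤ θ) (hθ : θ < 1) (C : ℝ) :
    ∃ c K : ℝ, 0 < c ∧ ∀ E : Set ℕ, (∀ X : ℕ, 1 ≤ X → (((Icc 1 X).filter (fun v => v ∈ E)).card : ℝ) ≤ C * (X : ℝ) ^ θ) →
      ∀ N : ℕ, 1 ≤ N → ({m : ℕ | 1 ≤ m ∧ m ≤ N ∧ comp fs m ∈ E}.ncard : ℝ) ≤
        K * N * Real.exp (-(c * Real.log N ^ ((1 : ℝ) / (fs.length + 1)))) := by
  obtain ⟨c, K, hc, -, hK⟩ := comp_thin fs hfs (β := 1) (c := 1 - θ) (K := |C| + 1) one_pos le_rfl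
    (by linarith) (by positivity)
  refine ⟨c, K, hc, fun E hE N hN => ?_⟩
  have h2 := hK E (thin_of_power hθ0 _ hE) N hN
  rw [mul_one, add_comm (1 : ℝ)] at h2
  refine le_trans ?_ h2
  have h3 : {m : ℕ | 1 ≤ m ∧ m ≤ N ∧ comp fs m ∈ E} ⊆
      (((range (N + 1)).filter (fun v => v ∈ comp fs ⁻¹' E) : Finset ℕ) : Set ℕ) := by
    rintro m ⟨hm1, hmN, hm⟩
    rw [mem_coe, mem_filter, mem_range]
    exact ⟨by omega, hm⟩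
  have h4 := Set.ncard_le_ncard h3 (finite_toSet _)
  rw [Set.ncard_coe_finset] at h4
  exact_mod_cast h4

end Pool.Agent.N375.AV
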