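import Mathlib
import Pool.Agent.N375.AV.D

set_option autoImplicit false

/-! Exceptional sets with a saving of every power of the logarithm. -/

namespace Pool.Agent.N375.AV

open Finset Classical

/-- a saving of every power of the logarithm -/
def LogThin (E : Set ℕ) : Prop := ∀ A : ℕ, ∃ K : ℝ, ∀ X : ℕ, 1 ≤ X →
  (((range (X + 1)).filter (fun v => v ∈ E)).card : ℝ) ≤ K * X / (1 + Real.log X) ^ A

/-- the part of the core estimate without the exceptional set -/
lemma base {C : ℝ} (hC1 : 1 ≤ C) (A : ℕ) : ∃ K : ℝ, 0 ≤ K ∧ ∀ N : ℕ, 1 ≤ N → ∃ z : ℕ, 2 ≤ z ∧ C ≤ z ∧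
    Real.log N ≤ Real.log z ^ 2 ∧
    √N + C * N * Real.log z * Real.exp (-(Real.log N / (16 * Real.log z))) + 2 * N / z ≤
      K * N / (1 + Real.log N) ^ A := by
  obtain ⟨A', hA'⟩ : ∃ A' : ℝ, A' = 1 + Real.log (2 * C + 4) := ⟨_, rfl⟩
  have hl2 : 0 ≤ Real.log (2 * C + 4) := Real.log_nonneg (by linarith)
  have hA1 : 1 ≤ A' := by rw [hA']; linarith
  obtain ⟨c, hc⟩ : ∃ c : ℝ, c = 1 / (32 * A') := ⟨_, rfl⟩
  have hc0 : 0 < c := by rw [hc]; positivity
  have hc1 : c ≤ 1 / 32 := by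
    rw [hc]
    apply one_div_le_one_div_of_le (by norm_num)
    linarith
  obtain ⟨K₄, hK₄, habs⟩ := absorb (A + 1) (b := 1 / 2) (c := c) (by norm_num) hc0
  refine ⟨(3 + 6 * C * A' + 6) * K₄, by positivity, fun N hN => ?_⟩
  have hN1 : (1 : ℝ) ≤ N := by exact_mod_cast hN
  have hN0 : (0 : ℝ) < N := by linarith
  obtain ⟨L, hL⟩ : ∃ L, L = Real.log N := ⟨_, rfl⟩
  have hL0 : 0 ≤ L := by rw [hL]; exact Real.log_nonneg hN1
  rw [← hL]
  obtain ⟨r, hr⟩ : ∃ r : ℝ, r = L ^ (1 / 2 : ℝ) := ⟨_, rfl⟩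
  have hr0 : 0 ≤ r := by rw [hr]; exact Real.rpow_nonneg hL0 _
  have hrr : r * r = L := by
    rw [hr, ← Real.rpow_add_of_nonneg hL0 (by norm_num) (by norm_num)]
    norm_num
  obtain ⟨z, hz⟩ : ∃ z : ℕ, z = ⌈(C + 2) * Real.exp r⌉₊ := ⟨_, rfl⟩
  have heγ : 1 ≤ Real.exp r := Real.one_le_exp hr0
  have hz1 : (C + 2) * Real.exp r ≤ z := by rw [hz]; exact Nat.le_ceil _
  have hz2 : (z : ℝ) ≤ (2 * C + 4) * Real.exp r := by
    have := (Nat.ceil_lt_add_one (a := (C + 2) * Real.exp r) (by positivity)).le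
    have h1 : 1 ≤ (C + 2) * Real.exp r := one_le_mul_of_one_le_of_one_le (by linarith) heγ
    rw [hz]
    linarith
  have hzC : C + 2 ≤ z := by
    have := mul_le_mul_of_nonneg_left heγ (by linarith : 0 ≤ C + 2)
    linarith
  have hz2' : 2 ≤ z := by
    have : (2 : ℝ) ≤ z := by linarith
    exact_mod_cast this
  have hz0 : (0 : ℝ) < z := by linarith
  have hze : Real.exp r ≤ z := by
    have := mul_le_mul_of_nonneg_right (by linarith : 1 ≤ C + 2) (Real.exp_pos r).le
    linarith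
  have hlz1 : r ≤ Real.log z := by
    rw [Real.le_log_iff_exp_le hz0]
    exact hze
  have hlz2 : Real.log z ≤ A' * (1 + r) := by
    have h1 := Real.log_le_log hz0 hz2
    rw [Real.log_mul (by linarith) (Real.exp_pos _).ne', Real.log_exp] at h1
    rw [hA']
    have := mul_nonneg hl2 hr0
    linarith
  have hlz0 : 0 ≤ Real.log z := by linarith
  have hrL : r ≤ 1 + L := by nlinarith [sq_nonneg (r - 1)]
  obtain ⟨W, hW⟩ : ∃ W, W = Real.exp (-(c * r)) := ⟨_, rfl⟩
  have hW0 : 0 < W := by rw [hW]; exact Real.exp_pos _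
  have he3 : Real.exp 1 ≤ 3 := by
    have := Real.exp_one_lt_d9
    linarith
  have hcr : c * r ≤ 1 / 32 * r := mul_le_mul_of_nonneg_right hc1 hr0
  -- (a)
  have ha : √(N : ℝ) ≤ 3 * N * W := by
    have h1 : √(N : ℝ) = N * Real.exp (-(L / 2)) := by
      rw [hL, ← Real.log_sqrt hN0.le, Real.exp_neg, Real.exp_log (Real.sqrt_pos.2 hN0)]
      field_simp
      exact Real.sq_sqrt hN0.le
    have h2 : Real.exp (-(L / 2)) ≤ Real.exp 1 * W := by
      rw [hW, ← Real.exp_add]
      apply Real.exp_le_exp.2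
      linarith
    rw [h1]
    calc (N : ℝ) * Real.exp (-(L / 2)) ≤ N * (Real.exp 1 * W) := by gcongr
      _ ≤ N * (3 * W) := by gcongr
      _ = _ := by ring
  -- (b)
  have hb : Real.exp (-(L / (16 * Real.log z))) ≤ 3 * W := by
    have h2 : Real.exp (-(L / (16 * Real.log z))) ≤ Real.exp 1 * W := by
      rw [hW, ← Real.exp_add]
      apply Real.exp_le_exp.2
      rcases le_or_gt r 1 with h | h
      · have h3 : 0 ≤ L / (16 * Real.log z) := div_nonneg hL0 (by linarith)
        linarith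
      · have h3 : 16 * Real.log z ≤ 32 * A' * r := by
          have := mul_le_mul_of_nonneg_left (by linarith : 1 + r ≤ 2 * r) (by linarith : 0 ≤ A')
          linarith
        have h4 : L / (32 * A' * r) ≤ L / (16 * Real.log z) :=
          div_le_div_of_nonneg_left hL0 (by linarith) h3
        have h5 : L / (32 * A' * r) = c * r := by
          rw [hc, ← hrr]
          have h7 : r ≠ 0 := by linarith
          field_simp
        linarith
    refine h2.trans ?_
    gcongr
  -- (c)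
  have hcc : 2 * (N : ℝ) / z ≤ 6 * N * W := by
    have h1 : 1 / (z : ℝ) ≤ 3 * W := by
      have h2 : 1 / (z : ℝ) ≤ Real.exp (-r) := by
        rw [Real.exp_neg, one_div]
        exact inv_anti₀ (Real.exp_pos _) hze
      have h3 : Real.exp (-r) ≤ Real.exp 1 * W := by
        rw [hW, ← Real.exp_add]
        apply Real.exp_le_exp.2
        linarith
      refine h2.trans (h3.trans ?_)
      gcongr
    calc 2 * (N : ℝ) / z = 2 * N * (1 / z) := by ring
      _ ≤ 2 * N * (3 * W) := by gcongr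
      _ = _ := by ring
  refine ⟨z, hz2', by linarith, ?_, ?_⟩
  · rw [← hrr, pow_two]
    exact mul_le_mul hlz1 hlz1 hr0 hlz0
  have hlzL : Real.log z ≤ 2 * A' * (1 + L) := by
    have : A' * (1 + r) ≤ A' * (2 * (1 + L)) := mul_le_mul_of_nonneg_left (by linarith) (by linarith)
    linarith
  have t1 : C * N * Real.log z * Real.exp (-(L / (16 * Real.log z))) ≤ 6 * C * A' * (N * W * (1 + L)) := by
    calc C * N * Real.log z * Real.exp (-(L / (16 * Real.log z)))
        ≤ C * N * (2 * A' * (1 + L)) * (3 * W) := by gcongr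
      _ = _ := by ring
  have hNW : 0 < N * W := by positivity
  have t0 : N * W ≤ N * W * (1 + L) := le_mul_of_one_le_right hNW.le (by linarith)
  have hall : √N + C * N * Real.log z * Real.exp (-(L / (16 * Real.log z))) + 2 * N / z ≤
      (3 + 6 * C * A' + 6) * (N * W * (1 + L)) := by
    have : (3 + 6 * C * A' + 6) * (N * W * (1 + L)) =
      3 * (N * W * (1 + L)) + 6 * C * A' * (N * W * (1 + L)) + 6 * (N * W * (1 + L)) := by ring
    rw [this]
    linarith
  have hWP : W * (1 + L) ≤ K₄ / (1 + L) ^ A := by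
    have h1 := habs L hL0
    rw [← hr] at h1
    rw [le_div_iff₀ (by positivity)]
    calc W * (1 + L) * (1 + L) ^ A = (1 + L) ^ (A + 1) * W := by ring
      _ ≤ K₄ * Real.exp (c * r) * W := by gcongr
      _ = K₄ := by
        rw [hW, mul_assoc, ← Real.exp_add]
        simp
  calc √N + C * N * Real.log z * Real.exp (-(L / (16 * Real.log z))) + 2 * N / z
      ≤ (3 + 6 * C * A' + 6) * (N * W * (1 + L)) := hall
    _ = (3 + 6 * C * A' + 6) * N * (W * (1 + L)) := by ring
    _ ≤ (3 + 6 * C * A' + 6) * N * (K₄ / (1 + L) ^ A) := by gcongr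
    _ = _ := by ring

/-- **Preimages of sets with a saving of every power of the logarithm have such a saving.** -/
theorem preimage_log {f : ℕ → ℕ} (hf : PD f) {E : Set ℕ} (hE : LogThin E) : LogThin (f ⁻¹' E) := by
  obtain ⟨C, hC1, C', hC⟩ := core hf
  intro A
  obtain ⟨K₁, hK₁, hbase⟩ := base hC1 A
  obtain ⟨K₂, hK₂⟩ := hE (2 * (A + C'))
  obtain ⟨K₄, hK₄, habs⟩ := absorb A (b := 1) (c := 1) one_pos one_pos
  refine ⟨K₁ + |K₂| * C + K₄, fun N hN => ?_⟩
  have hN1 : (1 : ℝ) ≤ N := by exact_mod_cast hN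
  have hN0 : (0 : ℝ) < N := by linarith
  obtain ⟨z, hz2, hzC, hzL, hz⟩ := hbase N hN
  obtain ⟨L, hL⟩ : ∃ L, L = Real.log N := ⟨_, rfl⟩
  have hL0 : 0 ≤ L := by rw [hL]; exact Real.log_nonneg hN1
  rw [← hL] at hzL hz ⊢
  have hz1 : (1 : ℝ) ≤ z := by exact_mod_cast (by omega : 1 ≤ z)
  have hlz : 0 ≤ Real.log z := Real.log_nonneg hz1
  have hP : 0 < (1 + L) ^ (A + C') := by positivity
  have hd := hC N z hN hz2 hzC E (|K₂| / (1 + L) ^ (A + C')) (by positivity) (by
    intro X hX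
    have hX1 : 1 ≤ X := le_trans (Nat.one_le_pow 2 z (by omega)) hX
    refine (hK₂ X hX1).trans ?_
    have hX1' : (1 : ℝ) ≤ X := by exact_mod_cast hX1
    have h1 : Real.log z ≤ Real.log X := by
      apply Real.log_le_log (by linarith)
      have : z ≤ X := (Nat.le_self_pow (by norm_num) z).trans hX
      exact_mod_cast this
    have h2 : (1 + L) ^ (A + C') ≤ (1 + Real.log X) ^ (2 * (A + C')) := by
      rw [pow_mul]
      apply pow_le_pow_left₀ (by linarith)
      nlinarith
    have h3 : K₂ * X ≤ |K₂| * X := mul_le_mul_of_nonneg_right (le_abs_self _) (by linarith)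
    have hX0 : 0 ≤ Real.log X := Real.log_nonneg hX1'
    calc K₂ * X / (1 + Real.log X) ^ (2 * (A + C')) ≤ |K₂| * X / (1 + Real.log X) ^ (2 * (A + C')) := by gcongr
      _ ≤ |K₂| * X / (1 + L) ^ (A + C') := by
          apply div_le_div_of_nonneg_left (by positivity) hP h2
      _ = _ := by ring)
  rw [← hL] at hd
  have h0 : (((range (N + 1)).filter (fun v => v ∈ f ⁻¹' E)).card : ℝ) ≤
      1 + (((Icc 1 N).filter (fun n => f n ∈ E)).card : ℝ) := by
    have h1 : (range (N + 1)).filter (fun v => v ∈ f ⁻¹' E) ⊆ insert 0 ((Icc 1 N).filter (fun n => f n ∈ E)) := by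
      intro v hv
      rw [mem_filter, mem_range] at hv
      rw [mem_insert, mem_filter, mem_Icc]
      rcases Nat.eq_zero_or_pos v with h | h
      · left; exact h
      · right
        exact ⟨⟨h, by omega⟩, hv.2⟩
    have h2 := (card_le_card h1).trans (card_insert_le _ _)
    have h3 : (((range (N + 1)).filter (fun v => v ∈ f ⁻¹' E)).card : ℝ) ≤
      (((Icc 1 N).filter (fun n => f n ∈ E)).card : ℝ) + 1 := by exact_mod_cast h2
    linarith
  have hPA : 0 < (1 + L) ^ A := by positivity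
  have h1 : (1 : ℝ) ≤ K₄ * N / (1 + L) ^ A := by
    have h2 := habs L hL0
    rw [Real.rpow_one, one_mul, hL, Real.exp_log hN0, ← hL] at h2
    rw [le_div_iff₀ hPA, one_mul]
    exact h2
  have h2 : |K₂| / (1 + L) ^ (A + C') * C * N * (1 + L) ^ C' = |K₂| * C * N / (1 + L) ^ A := by
    rw [pow_add]
    field_simp
  rw [h2] at hd
  have h3 : (K₁ + |K₂| * C + K₄) * N / (1 + L) ^ A = K₁ * N / (1 + L) ^ A + |K₂| * C * N / (1 + L) ^ A +
      K₄ * N / (1 + L) ^ A := by ring
  rw [h3]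
  linarith

theorem comp_log (fs : List (ℕ → ℕ)) (hfs : ∀ f ∈ fs, PD f) : ∀ {E : Set ℕ}, LogThin E →
    LogThin (comp fs ⁻¹' E) := by
  induction fs with
  | nil => intro E hE; simpa [comp] using hE
  | cons f fs ih =>
    intro E hE
    exact ih (fun g hg => hfs g (List.mem_cons_of_mem _ hg)) (preimage_log (hfs f List.mem_cons_self) hE)

end Pool.Agent.N375.AV
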