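import Mathlib
import Pool.Agent.N375.AV.L

set_option autoImplicit false

/-! Exceptional sets with a saving of every power of the logarithm: neighbourhoods of polylogarithmic length. -/

namespace Pool.Agent.N375.AV

open Finset Classical
open Pool.Agent.N733.TG (Expanding step_sum)

lemma logThin_mono {E E' : Set ℕ} (h : E ⊆ E') (hE : LogThin E') : LogThin E := by
  intro A
  obtain ⟨K, hK⟩ := hE A
  refine ⟨K, fun X hX => le_trans ?_ (hK X hX)⟩
  have : (range (X + 1)).filter (fun v => v ∈ E) ⊆ (range (X + 1)).filter (fun v => v ∈ E') := by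
    intro v hv
    rw [mem_filter] at hv ⊢
    exact ⟨hv.1, h hv.2⟩
  exact_mod_cast card_le_card this

/-- the usual form of the hypothesis -/
lemma logThin_of {E : Set ℕ} (h : ∀ B : ℝ, ∃ X₀ : ℕ, ∀ X : ℕ, X₀ ≤ X →
    (((Icc 1 X).filter (fun n => n ∈ E)).card : ℝ) ≤ X / Real.log X ^ B) : LogThin E := by
  intro A
  obtain ⟨X₀, hX₀⟩ := h A
  obtain ⟨K₄, hK₄, habs⟩ := absorb A (b := 1) (c := 1) one_pos one_pos
  refine ⟨K₄ * (X₀ + 4) + 2 ^ A, fun X hX => ?_⟩
  have hX1 : (1 : ℝ) ≤ X := by exact_mod_cast hX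
  have hX0 : (0 : ℝ) < X := by linarith
  have hL0 : 0 ≤ Real.log X := Real.log_nonneg hX1
  have hPA : 0 < (1 + Real.log X) ^ A := by positivity
  have h1 : (1 + Real.log X) ^ A ≤ K₄ * X := by
    have h2 := habs (Real.log X) hL0
    rw [Real.rpow_one, one_mul, Real.exp_log hX0] at h2
    exact h2
  have hsub : (range (X + 1)).filter (fun v => v ∈ E) ⊆ insert 0 ((Icc 1 X).filter (fun n => n ∈ E)) := by
    intro v hv
    rw [mem_filter, mem_range] at hv
    rw [mem_insert, mem_filter, mem_Icc]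
    rcases Nat.eq_zero_or_pos v with h | h
    · left; exact h
    · right
      exact ⟨⟨h, by omega⟩, hv.2⟩
  have h2 := (card_le_card hsub).trans (card_insert_le _ _)
  have h3 : (((range (X + 1)).filter (fun v => v ∈ E)).card : ℝ) ≤
    (((Icc 1 X).filter (fun n => n ∈ E)).card : ℝ) + 1 := by exact_mod_cast h2
  rw [le_div_iff₀ hPA]
  by_cases hc : X₀ + 3 ≤ X
  · have h4 := hX₀ X (by omega)
    have hl1 : 1 ≤ Real.log X := by
      rw [Real.le_log_iff_exp_le hX0]
      have := Real.exp_one_lt_d9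
      have h5 : (3 : ℝ) ≤ X := by exact_mod_cast (by omega : 3 ≤ X)
      linarith
    rw [Real.rpow_natCast] at h4
    have h5 : (X : ℝ) / Real.log X ^ A ≤ 2 ^ A * X / (1 + Real.log X) ^ A := by
      rw [div_le_div_iff₀ (by positivity) hPA]
      have h6 : (1 + Real.log X) ^ A ≤ 2 ^ A * Real.log X ^ A := by
        rw [← mul_pow]
        exact pow_le_pow_left₀ (by linarith) (by linarith) A
      nlinarith
    have h6 : (((range (X + 1)).filter (fun v => v ∈ E)).card : ℝ) ≤ 2 ^ A * X / (1 + Real.log X) ^ A + 1 := by linarith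
    calc (((range (X + 1)).filter (fun v => v ∈ E)).card : ℝ) * (1 + Real.log X) ^ A
        ≤ (2 ^ A * X / (1 + Real.log X) ^ A + 1) * (1 + Real.log X) ^ A := by gcongr
      _ = 2 ^ A * X + (1 + Real.log X) ^ A := by
          field_simp
      _ ≤ 2 ^ A * X + K₄ * X := by linarith
      _ ≤ (K₄ * (X₀ + 4) + 2 ^ A) * X := by
          have h7 : (0 : ℝ) ≤ X₀ := Nat.cast_nonneg _
          have h8 : 0 ≤ K₄ * X * (X₀ + 3) := by positivity
          nlinarith
  · have h4 : (((range (X + 1)).filter (fun v => v ∈ E)).card : ℝ) ≤ X₀ + 4 := by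
      have h5 : ((range (X + 1)).filter (fun v => v ∈ E)).card ≤ X + 1 := (card_filter_le _ _).trans (by simp)
      have h6 : ((range (X + 1)).filter (fun v => v ∈ E)).card ≤ X₀ + 4 := by omega
      exact_mod_cast h6
    calc (((range (X + 1)).filter (fun v => v ∈ E)).card : ℝ) * (1 + Real.log X) ^ A
        ≤ (X₀ + 4) * (K₄ * X) := mul_le_mul h4 h1 hPA.le (by positivity)
      _ = K₄ * (X₀ + 4) * X := by ring
      _ ≤ (K₄ * (X₀ + 4) + 2 ^ A) * X := by
          apply mul_le_mul_of_nonneg_right _ hX0.le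
          have : (0 : ℝ) ≤ 2 ^ A := by positivity
          linarith

/-- neighbourhoods of polylogarithmic length -/
theorem near_log {E : Set ℕ} (hE : LogThin E) {G : ℕ → ℝ} (hG : Expanding G 1) (W : ℕ) :
    LogThin {v : ℕ | ∃ n ∈ E, |(n : ℝ) - G v| ≤ (1 + Real.log v) ^ W} := by
  obtain ⟨-, ⟨a, ha, hstep⟩, ⟨C₁, hC₁⟩⟩ := hG
  obtain ⟨K₅, hK₅, habs⟩ := absorb W (b := 1) (c := 1) one_pos one_pos
  intro A
  obtain ⟨K₁, hK₁⟩ := hE (A + W)
  obtain ⟨K₄, hK₄, habs4⟩ := absorb A (b := 1) (c := 1) one_pos one_pos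
  obtain ⟨C₂, hC₂⟩ : ∃ C₂ : ℕ, C₂ = ⌈|C₁| + K₅⌉₊ + 1 := ⟨_, rfl⟩
  have hC₂' : |C₁| + K₅ ≤ C₂ := by
    have := Nat.le_ceil (|C₁| + K₅)
    rw [hC₂]
    push_cast
    linarith
  refine ⟨|K₁| * C₂ * (2 / a + 1) + K₄, fun X hX => ?_⟩
  have hX1 : (1 : ℝ) ≤ X := by exact_mod_cast hX
  have hX0 : (0 : ℝ) < X := by linarith
  have hL0 : 0 ≤ Real.log X := Real.log_nonneg hX1
  obtain ⟨w, hw⟩ : ∃ w : ℝ, w = (1 + Real.log X) ^ W := ⟨_, rfl⟩
  have hw1 : 1 ≤ w := by rw [hw]; exact one_le_pow₀ (by linarith)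
  have hwX : w ≤ K₅ * X := by
    have h2 := habs (Real.log X) hL0
    rw [Real.rpow_one, one_mul, Real.exp_log hX0] at h2
    rw [hw]
    exact h2
  have hPA : 0 < (1 + Real.log X) ^ A := by positivity
  have h1X : 1 ≤ K₄ * X / (1 + Real.log X) ^ A := by
    have h2 := habs4 (Real.log X) hL0
    rw [Real.rpow_one, one_mul, Real.exp_log hX0] at h2
    rw [le_div_iff₀ hPA, one_mul]
    exact h2
  obtain ⟨F, hF⟩ : ∃ F : Finset ℕ, F = (range (C₂ * X + 1)).filter (fun n => n ∈ E) := ⟨_, rfl⟩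
  obtain ⟨V, hV⟩ : ∃ V : ℕ → Finset ℕ, V = fun n : ℕ => (Icc 1 X).filter (fun v : ℕ => |(n : ℝ) - G v| ≤ w) := ⟨_, rfl⟩
  have hsub : (range (X + 1)).filter (fun v => v ∈ {v : ℕ | ∃ n ∈ E, |(n : ℝ) - G v| ≤ (1 + Real.log v) ^ W}) ⊆
      insert 0 (F.biUnion V) := by
    intro v hv
    rw [mem_filter, mem_range] at hv
    obtain ⟨hvX, n, hn, hnv⟩ := hv
    rw [mem_insert]
    rcases Nat.eq_zero_or_pos v with h | h
    · left; exact h
    · right
      have hv1 : (1 : ℝ) ≤ v := by exact_mod_cast h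
      have hvX' : (v : ℝ) ≤ X := by exact_mod_cast (by omega : v ≤ X)
      have hlv : Real.log v ≤ Real.log X := Real.log_le_log (by linarith) hvX'
      have hlv0 : 0 ≤ Real.log v := Real.log_nonneg hv1
      have e1 : |(n : ℝ) - G v| ≤ w := by
        rw [hw]
        exact hnv.trans (pow_le_pow_left₀ (by linarith) (by linarith) W)
      rw [mem_biUnion]
      refine ⟨n, ?_, ?_⟩
      · rw [hF, mem_filter, mem_range]
        refine ⟨?_, hn⟩
        have e2 := (abs_le.1 e1).2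
        have e3 : G v ≤ |C₁| * X := by
          calc G v ≤ C₁ * (v : ℝ) ^ (1 : ℝ) := hC₁ v h
            _ = C₁ * v := by rw [Real.rpow_one]
            _ ≤ |C₁| * v := mul_le_mul_of_nonneg_right (le_abs_self _) (by linarith)
            _ ≤ |C₁| * X := mul_le_mul_of_nonneg_left hvX' (abs_nonneg _)
        have e4 : (n : ℝ) ≤ C₂ * X := by
          have : (|C₁| + K₅) * X ≤ C₂ * X := mul_le_mul_of_nonneg_right hC₂' hX0.le
          linarith
        have e5 : n ≤ C₂ * X := by exact_mod_cast e4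
        omega
      · rw [hV, mem_filter, mem_Icc]
        exact ⟨⟨h, by omega⟩, e1⟩
  have hTc : ∀ n : ℕ, ((V n).card : ℝ) ≤ (2 / a + 1) * w := by
    intro n
    have h0 : (0 : ℝ) ≤ 2 * w / a := by positivity
    rcases (V n).eq_empty_or_nonempty with he | he
    · rw [he]
      simp only [card_empty, Nat.cast_zero]
      positivity
    · obtain ⟨v0, hv0⟩ : ∃ v0, v0 = (V n).min' he := ⟨_, rfl⟩
      have hv0m : v0 ∈ V n := by rw [hv0]; exact min'_mem _ _
      have hs' : V n ⊆ Icc v0 (v0 + ⌊2 * w / a⌋₊) := by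
        intro v hv
        have h1 : v0 ≤ v := by rw [hv0]; exact min'_le _ _ hv
        rw [mem_Icc]
        refine ⟨h1, ?_⟩
        rw [hV, mem_filter, mem_Icc] at hv hv0m
        have h2 := abs_le.1 hv.2
        have h3 := abs_le.1 hv0m.2
        have h4 : ((v - v0 : ℕ) : ℝ) ≤ 2 * w / a := by
          rw [le_div_iff₀ ha]
          have := step_sum hstep hv0m.1.1 h1
          linarith [h2.1, h3.2]
        have := Nat.le_floor h4
        omega
      have h5 := card_le_card hs'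
      rw [Nat.card_Icc] at h5
      have h6 : (((V n).card : ℕ) : ℝ) ≤ (⌊2 * w / a⌋₊ : ℝ) + 1 := by
        have : (V n).card ≤ ⌊2 * w / a⌋₊ + 1 := by omega
        exact_mod_cast this
      have h7 := Nat.floor_le h0
      calc ((V n).card : ℝ) ≤ (⌊2 * w / a⌋₊ : ℝ) + 1 := h6
        _ ≤ 2 * w / a + w := by linarith
        _ = (2 / a + 1) * w := by ring
  have hcard : (((range (X + 1)).filter (fun v => v ∈ {v : ℕ | ∃ n ∈ E, |(n : ℝ) - G v| ≤ (1 + Real.log v) ^ W})).card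
      : ℝ) ≤ 1 + ∑ n ∈ F, ((V n).card : ℝ) := by
    have h2 := (card_le_card hsub).trans ((card_insert_le _ _).trans (Nat.add_le_add_right card_biUnion_le 1))
    have h3 : (((range (X + 1)).filter (fun v => v ∈ {v : ℕ | ∃ n ∈ E, |(n : ℝ) - G v| ≤ (1 + Real.log v) ^ W})).card
      : ℝ) ≤ ∑ n ∈ F, ((V n).card : ℝ) + 1 := by exact_mod_cast h2
    linarith
  have hC₂1 : 1 ≤ C₂ := by omega
  have hCX : 1 ≤ C₂ * X := Nat.mul_pos (by omega) (by omega)
  have hFc : (F.card : ℝ) ≤ |K₁| * (C₂ * X) / (1 + Real.log X) ^ (A + W) := by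
    have h2 := hK₁ (C₂ * X) hCX
    rw [← hF] at h2
    refine h2.trans ?_
    push_cast
    have h3 : Real.log X ≤ Real.log ((C₂ : ℝ) * X) := by
      apply Real.log_le_log hX0
      have : (1 : ℝ) ≤ C₂ := by exact_mod_cast hC₂1
      nlinarith
    have h4 : K₁ * ((C₂ : ℝ) * X) ≤ |K₁| * (C₂ * X) := mul_le_mul_of_nonneg_right (le_abs_self _) (by positivity)
    have h5 : (1 + Real.log X) ^ (A + W) ≤ (1 + Real.log ((C₂ : ℝ) * X)) ^ (A + W) :=
      pow_le_pow_left₀ (by linarith) (by linarith) _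
    calc K₁ * ((C₂ : ℝ) * X) / (1 + Real.log ((C₂ : ℝ) * X)) ^ (A + W)
        ≤ |K₁| * (C₂ * X) / (1 + Real.log ((C₂ : ℝ) * X)) ^ (A + W) := by
          apply div_le_div_of_nonneg_right h4
          apply pow_nonneg
          linarith
      _ ≤ _ := div_le_div_of_nonneg_left (by positivity) (by positivity) h5
  calc (((range (X + 1)).filter (fun v => v ∈ {v : ℕ | ∃ n ∈ E, |(n : ℝ) - G v| ≤ (1 + Real.log v) ^ W})).card : ℝ)
      ≤ 1 + ∑ n ∈ F, ((V n).card : ℝ) := hcard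
    _ ≤ 1 + ∑ n ∈ F, (2 / a + 1) * w := by
        have := sum_le_sum (fun n (_ : n ∈ F) => hTc n)
        linarith
    _ = 1 + F.card * ((2 / a + 1) * w) := by rw [sum_const, nsmul_eq_mul]
    _ ≤ K₄ * X / (1 + Real.log X) ^ A + |K₁| * (C₂ * X) / (1 + Real.log X) ^ (A + W) * ((2 / a + 1) * w) := by
        apply add_le_add h1X
        exact mul_le_mul_of_nonneg_right hFc (by positivity)
    _ = (|K₁| * C₂ * (2 / a + 1) + K₄) * X / (1 + Real.log X) ^ A := by
        rw [hw, pow_add]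
        field_simp
        ring

/-- **Main tool for exceptional sets with a saving of every power of the logarithm.** -/
theorem log_windows {E : Set ℕ} (hE : LogThin E) (fs : List (ℕ → ℕ)) (hfs : ∀ f ∈ fs, PD f) {G : ℕ → ℝ}
    (hG : Expanding G 1) (W U : ℕ) : ∃ N₀ : ℕ, ∀ N : ℕ, N₀ ≤ N →
    ({m : ℕ | 1 ≤ m ∧ m ≤ N ∧ ∃ n ∈ E, |(n : ℝ) - G (comp fs m)| ≤ (1 + Real.log (comp fs m)) ^ W}.ncard : ℝ) ≤
      N / Real.log N ^ U := by
  obtain ⟨K, hK⟩ := comp_log fs hfs (near_log hE hG W) (U + 1)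
  obtain ⟨N₀, hN₀⟩ := exists_nat_ge (Real.exp (|K| + 1))
  refine ⟨N₀, fun N hN => ?_⟩
  have hN0' : Real.exp (|K| + 1) ≤ N := hN₀.trans (by exact_mod_cast hN)
  have hN0 : (0 : ℝ) < N := lt_of_lt_of_le (Real.exp_pos _) hN0'
  have hN1 : 1 ≤ N := by exact_mod_cast hN0
  have hl : |K| + 1 ≤ Real.log N := by
    rw [Real.le_log_iff_exp_le hN0]
    exact hN0'
  have hK0 := abs_nonneg K
  have h2 := hK N hN1
  have h3 : {m : ℕ | 1 ≤ m ∧ m ≤ N ∧ ∃ n ∈ E, |(n : ℝ) - G (comp fs m)| ≤ (1 + Real.log (comp fs m)) ^ W} ⊆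
      (((range (N + 1)).filter (fun v => v ∈ comp fs ⁻¹' {v : ℕ | ∃ n ∈ E, |(n : ℝ) - G v| ≤
        (1 + Real.log v) ^ W}) : Finset ℕ) : Set ℕ) := by
    rintro m ⟨hm1, hmN, hm⟩
    rw [mem_coe, mem_filter, mem_range]
    exact ⟨by omega, hm⟩
  have h4 := Set.ncard_le_ncard h3 (finite_toSet _)
  rw [Set.ncard_coe_finset] at h4
  have h5 : ({m : ℕ | 1 ≤ m ∧ m ≤ N ∧ ∃ n ∈ E, |(n : ℝ) - G (comp fs m)| ≤
      (1 + Real.log (comp fs m)) ^ W}.ncard : ℝ) ≤ K * N / (1 + Real.log N) ^ (U + 1) :=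
    le_trans (by exact_mod_cast h4) h2
  refine h5.trans ?_
  have h6 : K * N ≤ Real.log N * N := mul_le_mul_of_nonneg_right (by linarith [le_abs_self K]) hN0.le
  have hl0 : 0 < Real.log N := by linarith
  calc K * N / (1 + Real.log N) ^ (U + 1) ≤ Real.log N * N / (1 + Real.log N) ^ (U + 1) := by gcongr
    _ ≤ Real.log N * N / Real.log N ^ (U + 1) := by
        apply div_le_div_of_nonneg_left (by positivity) (by positivity)
        exact pow_le_pow_left₀ hl0.le (by linarith) _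
    _ = N / Real.log N ^ U := by
        rw [pow_succ]
        field_simp

end Pool.Agent.N375.AV
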